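import Pool.Agent.FFG.EC.One
import Pool.Agent.PEPS953.Tfae

/-!
# The entropy criterion for gapped families
-/

open Finset
open scoped InnerProductSpace

set_option autoImplicit false
set_option linter.unusedSectionVars false
set_option linter.unusedVariables false

namespace Pool.Agent.FFG.EC

open Pool.Agent.PEPS953 Pool.Agent.PepsX Pool.Agent.PepsY Pool.Agent.FFG
open Pool.Agent.FFG.EPlain (glue rdm rdm_isHermitian entropy boxAt IsDecomp condSum SmallCondSum)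

lemma family_param {d R n k : ℕ} {C l K : ℝ} (hd : 0 < d) (hC : 1 ≤ C) (hl : 1 ≤ l)
    (hR : (R : ℝ) ≤ C * l ^ k) (hn : (n : ℝ) ≤ C * l ^ k) (hK : K ≤ C * l ^ k) :
    ((d ^ (2 * (n * R ^ 2)) : ℕ) : ℝ) ≤ Real.exp ((2 * Real.log d * C ^ 3 + C + 1) * l ^ (3 * k)) ∧
      Real.exp (-((2 * Real.log d * C ^ 3 + C + 1) * l ^ (3 * k))) ≤ Real.exp (-(K / 2) - 1) := by
  have hd1 : (1 : ℝ) ≤ d := by exact_mod_cast hd
  have hd0 : (0 : ℝ) < d := by linarith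
  have hlog : 0 ≤ Real.log d := Real.log_nonneg hd1
  have hC0 : 0 ≤ C := by linarith
  have hl0 : 0 ≤ l := by linarith
  have h1 : (n : ℝ) * (R : ℝ) ^ 2 ≤ C ^ 3 * l ^ (3 * k) := by
    calc (n : ℝ) * (R : ℝ) ^ 2 ≤ (C * l ^ k) * (C * l ^ k) ^ 2 := by
          refine mul_le_mul hn ?_ (by positivity) (by positivity)
          exact pow_le_pow_left₀ (Nat.cast_nonneg _) hR 2
      _ = C ^ 3 * l ^ (3 * k) := by rw [pow_mul']; ring
  have h2 : l ^ k ≤ l ^ (3 * k) := pow_le_pow_right₀ hl (by omega)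
  have h3 : 1 ≤ l ^ (3 * k) := one_le_pow₀ hl
  have hC3 : 0 ≤ 2 * Real.log d * C ^ 3 := by positivity
  constructor
  · have e : ((d ^ (2 * (n * R ^ 2)) : ℕ) : ℝ) =
        Real.exp (2 * Real.log d * ((n : ℝ) * (R : ℝ) ^ 2)) := by
      rw [show 2 * Real.log d * ((n : ℝ) * (R : ℝ) ^ 2) =
        ((2 * (n * R ^ 2) : ℕ) : ℝ) * Real.log d by push_cast; ring, Real.exp_nat_mul,
        Real.exp_log hd0]
      push_cast
      rfl
    rw [e]
    refine Real.exp_le_exp.mpr ?_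
    calc 2 * Real.log d * ((n : ℝ) * (R : ℝ) ^ 2) ≤ 2 * Real.log d * (C ^ 3 * l ^ (3 * k)) :=
          mul_le_mul_of_nonneg_left h1 (by positivity)
      _ ≤ (2 * Real.log d * C ^ 3 + C + 1) * l ^ (3 * k) := by nlinarith
  · refine Real.exp_le_exp.mpr ?_
    have h4 : C * l ^ k ≤ C * l ^ (3 * k) := mul_le_mul_of_nonneg_left h2 hC0
    have h5 : 0 ≤ 2 * Real.log d * C ^ 3 * l ^ (3 * k) := by positivity
    nlinarith

/-- The entropy criterion for gapped families. -/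
theorem family {d r : ℕ} (hd : 0 < d) (hr : 0 < r) {h : Matrix (LConf d r) (LConf d r) ℂ}
    (hh : h.IsHermitian) {Δ : ℝ} (hΔ : 0 < Δ) {E : ℕ → ℝ} {Ψ : ∀ (L : ℕ) [NeZero L], Hil d L}
    (hgs : ∃ L₁ : ℕ, ∀ (L : ℕ) [NeZero L], L₁ ≤ L → IsGappedGS (ham L h) (E L) Δ (Ψ L))
    (H : SmallCondSum fun L _ => (Ψ L).ofLp) : PolyAcc Ψ := by
  refine polyAcc_of_quasiAcc (quasiAcc_of_quasiOverlap hr hh hΔ hgs ?_)
  obtain ⟨L₁, hL₁⟩ := hgs
  obtain ⟨k, C, L₀, hL₀⟩ := H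
  refine ⟨3 * k, 2 * Real.log d * (max C 1) ^ 3 + max C 1 + 1, max (max L₀ L₁) 3, fun L _ hL => ?_⟩
  have hL3 : 3 ≤ L := le_trans (le_max_right _ _) hL
  have hl : 1 ≤ Real.log L := one_le_log hL3
  have hl0 : 0 ≤ Real.log L := by linarith
  obtain ⟨R, n, m, A, B, c, h1, h2, h3, h4⟩ :=
    hL₀ L (le_trans ((le_max_left _ _).trans (le_max_left _ _)) hL)
  have hΨ := (hL₁ L (le_trans ((le_max_right _ _).trans (le_max_left _ _)) hL)).norm_eq
  have hCk : C * (Real.log L) ^ k ≤ max C 1 * (Real.log L) ^ k :=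
    mul_le_mul_of_nonneg_right (le_max_left _ _) (by positivity)
  obtain ⟨p1, p2⟩ := family_param (K := condSum (Ψ L).ofLp m A B) hd (le_max_right C 1) hl
    (h2.trans hCk) (h3.trans hCk) (h4.trans hCk)
  obtain ⟨Φ, q1, q2, q3⟩ := one_torus hd h1 hΨ one_pos
  exact ⟨_, Φ, q1, p1, q2, (mul_le_mul_of_nonneg_right p2 (norm_nonneg _)).trans q3⟩

end Pool.Agent.FFG.EC
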