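import Pool.Agent.FFG.EC.Defs
import Pool.Agent.PepsY.Conn

/-!
# Boxes on the torus are connected
-/

open Finset
open scoped InnerProductSpace

set_option autoImplicit false
set_option linter.unusedSectionVars false
set_option linter.unusedVariables false

namespace Pool.Agent.FFG.EC

open Pool.Agent.PEPS953 Pool.Agent.PepsX Pool.Agent.PepsY Pool.Agent.FFG
open Pool.Agent.FFG.EPlain (glue rdm rdm_isHermitian entropy boxAt IsDecomp condSum)

variable {d L : ℕ} [NeZero L]

private theorem boxConn_eq (R : ℕ) (c : Site L) :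
    boxAt L R c = square L c.1.val c.2.val R := by
  ext v
  unfold boxAt square
  simp only [mem_image, mem_univ, true_and, mem_product, mem_range]
  constructor
  · rintro ⟨p, rfl⟩
    refine ⟨(p.1.val, p.2.val), ⟨p.1.isLt, p.2.isLt⟩, ?_⟩
    simp [tile, Plain.boxPos]
  · rintro ⟨⟨x, y⟩, ⟨hx, hy⟩, rfl⟩
    refine ⟨(⟨x, hx⟩, ⟨y, hy⟩), ?_⟩
    simp [tile, Plain.boxPos]

theorem conn_boxAt (R : ℕ) (c : Site L) : Conn (boxAt L R c) := by
  rw [boxConn_eq]
  exact conn_square _ _ _

theorem card_boxAt (R : ℕ) (c : Site L) : #(boxAt L R c) ≤ R ^ 2 := by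
  refine card_image_le.trans ?_
  simp [sq]

theorem boxAt_nonempty {R : ℕ} (hR : 0 < R) (c : Site L) : (boxAt L R c).Nonempty :=
  ⟨_, mem_image_of_mem _ (mem_univ (⟨0, hR⟩, ⟨0, hR⟩))⟩

end Pool.Agent.FFG.EC
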