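import Pool.Agent.FFG.EC.Plain
import Pool.Agent.FFG.Local
import Pool.Agent.PEPS953.Transfer

/-!
# Entropy criterion: definitions for the proof
-/

open Finset
open scoped InnerProductSpace

set_option autoImplicit false
set_option linter.unusedSectionVars false
set_option linter.unusedVariables false

namespace Pool.Agent.FFG.EC

open Pool.Agent.PEPS953 Pool.Agent.PepsX Pool.Agent.PepsY Pool.Agent.FFG
open Pool.Agent.FFG.EPlain (glue rdm rdm_isHermitian entropy boxAt IsDecomp condSum)

/-- `f(A)` for a Hermitian matrix `A` and a function `f` of its eigenvalues. -/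
noncomputable def fnc {n : Type} [Fintype n] [DecidableEq n] {A : Matrix n n ℂ}
    (hA : A.IsHermitian) (f : ℝ → ℂ) : Matrix n n ℂ :=
  (hA.eigenvectorUnitary : Matrix n n ℂ) * Matrix.diagonal (fun i => f (hA.eigenvalues i)) *
    star (hA.eigenvectorUnitary : Matrix n n ℂ)

/-- The spectral projection of the `i`-th eigenvector. -/
noncomputable def eproj {n : Type} [Fintype n] [DecidableEq n] {A : Matrix n n ℂ}
    (hA : A.IsHermitian) (i : n) : Matrix n n ℂ :=
  (hA.eigenvectorUnitary : Matrix n n ℂ) * Matrix.single i i 1 *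
    star (hA.eigenvectorUnitary : Matrix n n ℂ)

/-- The function `x ↦ x ^ w` for `x > 0`, and `0` at `0`. -/
noncomputable def pw (w : ℂ) (x : ℝ) : ℂ := if x = 0 then 0 else Complex.exp (w * (Real.log x : ℂ))

variable {d L : ℕ} [NeZero L]

/-- The operator acting by the matrix `M` on the sites of `X`. -/
noncomputable def emb (X : Finset (Site L)) (M : Matrix (X → Fin d) (X → Fin d) ℂ) :
    Hil d L →L[ℂ] Hil d L :=
  Matrix.toEuclideanCLM (𝕜 := ℂ) (n := Conf d L) (fun s t =>
    if ∀ v, v ∉ X → s v = t v then M (fun v => s v) (fun v => t v) else 0)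

/-- The operator `f(ρ_X)`, where `ρ_X` is the reduced density matrix of `Ψ` on `X`. -/
noncomputable def rf (Ψ : Hil d L) (X : Finset (Site L)) (f : ℝ → ℂ) : Hil d L →L[ℂ] Hil d L :=
  emb X (fnc (rdm_isHermitian Ψ.ofLp X) f)

/-- The operator `ρ_{A ∪ B} ^ (z / 2) ρ_B ^ (- z / 2)`. -/
noncomputable def fac (Ψ : Hil d L) (A B : Finset (Site L)) (z : ℂ) : Hil d L →L[ℂ] Hil d L :=
  rf Ψ (A ∪ B) (pw (z / 2)) * rf Ψ B (pw (-z / 2))

/-- The product of the first `m` factors, the last one to the left. -/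
noncomputable def tprod (Ψ : Hil d L) (A B : ℕ → Finset (Site L)) (z : ℂ) :
    ℕ → (Hil d L →L[ℂ] Hil d L)
  | 0 => 1
  | m + 1 => fac Ψ (A m) (B m) z * tprod Ψ A B z m

/-- The basis vector of a configuration. -/
noncomputable def bvec (s : Conf d L) : Hil d L := EuclideanSpace.single s (1 : ℂ)

/-- The Hilbert-Schmidt pairing `Tr (Y* O Y)`. -/
noncomputable def trp (O Y : Hil d L →L[ℂ] Hil d L) : ℂ := ∑ s, ⟪Y (bvec s), O (Y (bvec s))⟫_ℂ

end Pool.Agent.FFG.EC
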