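import Pool.Agent.FFG.EC.Power

/-!
# Entropy criterion: the product `tprod` at and near `0`
-/

open Finset
open scoped InnerProductSpace

set_option autoImplicit false
set_option linter.unusedSectionVars false
set_option linter.unusedVariables false

namespace Pool.Agent.FFG.EC

open Pool.Agent.PEPS953 Pool.Agent.PepsX Pool.Agent.PepsY Pool.Agent.FFG
open Pool.Agent.FFG.EPlain (glue rdm rdm_isHermitian entropy boxAt IsDecomp condSum)

variable {d L : ℕ} [NeZero L]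

private lemma deriv_fac_eq (Ψ : Hil d L) (A B : Finset (Site L)) (z : ℂ) :
    fac Ψ A B z = rf Ψ (A ∪ B) (pw ((1 / 2 : ℂ) * z)) * rf Ψ B (pw ((-1 / 2 : ℂ) * z)) := by
  unfold fac
  congr 3
  · ring
  · ring

private lemma deriv_fac_zero (Ψ : Hil d L) (A B : Finset (Site L)) : fac Ψ A B 0 Ψ = Ψ := by
  rw [deriv_fac_eq, mul_apply_eq_comp, mul_zero, mul_zero, rf_supp, rf_supp]

private lemma deriv_star_rf_zero (Ψ : Hil d L) (X : Finset (Site L)) :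
    star (rf Ψ X (pw 0)) Ψ = Ψ := by
  rw [star_rf]
  have h : (fun x => star (pw 0 x)) = pw 0 := by
    funext x
    rw [star_pw, star_zero]
  rw [h, rf_supp]

private lemma deriv_star_fac_zero (Ψ : Hil d L) (A B : Finset (Site L)) :
    star (fac Ψ A B 0) Ψ = Ψ := by
  rw [deriv_fac_eq, mul_zero, mul_zero, star_mul, mul_apply_eq_comp,
    deriv_star_rf_zero, deriv_star_rf_zero]

private lemma deriv_inner_star (Ψ y : Hil d L) (T : Hil d L →L[ℂ] Hil d L) (h : star T Ψ = Ψ) :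
    ⟪Ψ, T y⟫_ℂ = ⟪Ψ, y⟫_ℂ := by
  rw [← ContinuousLinearMap.adjoint_inner_left, ← ContinuousLinearMap.star_eq_adjoint, h]

private lemma deriv_fac (Ψ : Hil d L) (A B : Finset (Site L)) :
    ∃ D : Hil d L →L[ℂ] Hil d L, HasDerivAt (fun z => fac Ψ A B z) D 0 ∧
      ⟪Ψ, D Ψ⟫_ℂ = -(((entropy Ψ.ofLp (A ∪ B) - entropy Ψ.ofLp B) / 2 : ℝ) : ℂ) := by
  have h1 := rf_hasDerivAt Ψ (A ∪ B) (1 / 2)
  have h2 := rf_hasDerivAt Ψ B (-1 / 2)
  have h3 := h1.mul h2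
  refine ⟨_, h3.congr_of_eventuallyEq (Filter.Eventually.of_forall fun z => ?_), ?_⟩
  · exact deriv_fac_eq Ψ A B z
  · simp only [mul_zero, add_apply, mul_apply_eq_comp,
      smul_apply, inner_add_right, inner_smul_right, rf_supp, map_smul]
    rw [deriv_inner_star Ψ _ _ (deriv_star_rf_zero Ψ (A ∪ B)), inner_rf_log, inner_rf_log]
    push_cast
    ring

theorem tprod_zero (Ψ : Hil d L) (A B : ℕ → Finset (Site L)) (m : ℕ) :
    tprod Ψ A B 0 m Ψ = Ψ := by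
  induction m with
  | zero => rfl
  | succ m ih => rw [tprod, mul_apply_eq_comp, ih, deriv_fac_zero]

private lemma deriv_tprod (Ψ : Hil d L) (A B : ℕ → Finset (Site L)) (m : ℕ) :
    ∃ D : Hil d L →L[ℂ] Hil d L, HasDerivAt (fun z => tprod Ψ A B z m) D 0 ∧
      ⟪Ψ, D Ψ⟫_ℂ = -((condSum Ψ.ofLp m A B / 2 : ℝ) : ℂ) := by
  induction m with
  | zero =>
    refine ⟨0, hasDerivAt_const _ _, ?_⟩
    simp [condSum]
  | succ m ih =>
    obtain ⟨D, hD, hD'⟩ := ih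
    obtain ⟨E, hE, hE'⟩ := deriv_fac Ψ (A m) (B m)
    refine ⟨_, hE.mul hD, ?_⟩
    rw [add_apply, mul_apply_eq_comp,
      mul_apply_eq_comp, inner_add_right, tprod_zero,
      deriv_inner_star Ψ _ _ (deriv_star_fac_zero Ψ (A m) (B m)), hE', hD']
    unfold condSum
    rw [sum_range_succ]
    push_cast
    ring

theorem tprod_hasDerivAt {Ψ : Hil d L} (hΨ : ‖Ψ‖ = 1) (A B : ℕ → Finset (Site L)) (m : ℕ) :
    HasDerivAt (fun z : ℂ => ⟪Ψ, tprod Ψ A B z m Ψ⟫_ℂ)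
      (-((condSum Ψ.ofLp m A B / 2 : ℝ) : ℂ)) 0 := by
  obtain ⟨D, hD, hD'⟩ := deriv_tprod Ψ A B m
  rw [← hD']
  have h1 : HasDerivAt (fun z : ℂ => tprod Ψ A B z m Ψ) (D Ψ) 0 := by
    have h := hD.clm_apply (hasDerivAt_const (0 : ℂ) Ψ)
    simpa using h
  have h2 := (innerSL ℂ Ψ).hasFDerivAt.comp_hasDerivAt (0 : ℂ) h1
  exact h2

theorem tprod_differentiable (Ψ : Hil d L) (A B : ℕ → Finset (Site L)) (m : ℕ) :
    Differentiable ℂ (fun z : ℂ => tprod Ψ A B z m) := by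
  induction m with
  | zero => exact differentiable_const _
  | succ m ih =>
    have h : (fun z : ℂ => tprod Ψ A B z (m + 1)) = fun z : ℂ =>
        (rf Ψ (A m ∪ B m) (pw ((1 / 2 : ℂ) * z)) * rf Ψ (B m) (pw ((-1 / 2 : ℂ) * z))) *
          tprod Ψ A B z m := by
      funext z
      rw [tprod, deriv_fac_eq]
    rw [h]
    exact ((rf_differentiable Ψ _ _).mul (rf_differentiable Ψ _ _)).mul ih

theorem tprod_bounded (Ψ : Hil d L) (A B : ℕ → Finset (Site L)) (m : ℕ) :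
    ∃ C : ℝ, ∀ z : ℂ, 0 ≤ z.re → z.re ≤ 1 → ‖tprod Ψ A B z m‖ ≤ C := by
  induction m with
  | zero => exact ⟨‖(1 : Hil d L →L[ℂ] Hil d L)‖, fun z _ _ => le_refl _⟩
  | succ m ih =>
    obtain ⟨C, hC⟩ := ih
    obtain ⟨C₁, h₁⟩ := rf_bounded Ψ (A m ∪ B m) (1 / 2)
    obtain ⟨C₂, h₂⟩ := rf_bounded Ψ (B m) (-1 / 2)
    refine ⟨C₁ * C₂ * C, fun z h0 h1 => ?_⟩
    rw [tprod, deriv_fac_eq]
    have e₁ : ((1 / 2 : ℂ)) = ((1 / 2 : ℝ) : ℂ) := by push_cast; ring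
    have e₂ : ((-1 / 2 : ℂ)) = ((-1 / 2 : ℝ) : ℂ) := by push_cast; ring
    rw [e₁, e₂]
    have a₁ := h₁ z h0 h1
    have a₂ := h₂ z h0 h1
    have a₃ := hC z h0 h1
    have b₁ : 0 ≤ C₁ := (norm_nonneg _).trans a₁
    have b₂ : 0 ≤ C₂ := (norm_nonneg _).trans a₂
    refine (norm_mul_le _ _).trans (mul_le_mul ((norm_mul_le _ _).trans
      (mul_le_mul a₁ a₂ (norm_nonneg _) b₁)) a₃ (norm_nonneg _) (mul_nonneg b₁ b₂))

theorem norm_tprod_le (Ψ : Hil d L) (A B : ℕ → Finset (Site L)) (m : ℕ) (t : ℝ) (x : Hil d L) :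
    ‖tprod Ψ A B ((t : ℂ) * Complex.I) m x‖ ≤ ‖x‖ := by
  induction m with
  | zero => exact le_refl _
  | succ m ih =>
    rw [tprod, mul_apply_eq_comp, deriv_fac_eq, mul_apply_eq_comp]
    refine (norm_rf_le _ _ (norm_pw_le ?_) _).trans ((norm_rf_le _ _ (norm_pw_le ?_) _).trans ih)
    · simp
    · simp

end Pool.Agent.FFG.EC
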