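import Pool.Agent.FFG.EC.Defs

/-!
# Entropy criterion: local matrices as operators
-/

open Finset
open scoped InnerProductSpace

set_option autoImplicit false
set_option linter.unusedSectionVars false
set_option linter.unusedVariables false

namespace Pool.Agent.FFG.EC

open Pool.Agent.PEPS953 Pool.Agent.PepsX Pool.Agent.PepsY Pool.Agent.FFG
open Pool.Agent.FFG.EPlain (glue rdm rdm_isHermitian entropy boxAt IsDecomp condSum)

variable {d L : ℕ} [NeZero L]

/-- The matrix of `emb X M`. -/
def embMat (X : Finset (Site L)) (M : Matrix (X → Fin d) (X → Fin d) ℂ) :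
    Matrix (Conf d L) (Conf d L) ℂ := fun s t =>
  if ∀ v, v ∉ X → s v = t v then M (fun v => s v) (fun v => t v) else 0

lemma emb_eq (X : Finset (Site L)) (M : Matrix (X → Fin d) (X → Fin d) ℂ) :
    emb X M = Matrix.toEuclideanCLM (𝕜 := ℂ) (n := Conf d L) (embMat X M) := rfl

/-- The matrix entries of `emb X M`. -/
lemma emb_mat (X : Finset (Site L)) (M : Matrix (X → Fin d) (X → Fin d) ℂ) (s t : Conf d L) :
    mat (emb X M) s t = if ∀ v, v ∉ X → s v = t v then M (fun v => s v) (fun v => t v) else 0 := by
  have h : mat (emb X M) = embMat X M := by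
    rw [emb_eq]; exact StarAlgEquiv.symm_apply_apply _ _
  rw [h]; rfl

private lemma embMat_mul (X : Finset (Site L)) (M N : Matrix (X → Fin d) (X → Fin d) ℂ) :
    embMat X (M * N) = embMat X M * embMat X N := by
  classical
  ext s t
  rw [Matrix.mul_apply]
  by_cases hst : ∀ v, v ∉ X → s v = t v
  · have h1 : embMat X (M * N) s t = (M * N) (fun v => s v) (fun v => t v) := if_pos hst
    rw [h1, Matrix.mul_apply]
    refine Finset.sum_of_injOn (fun a v => if h : v ∈ X then a ⟨v, h⟩ else s v) ?_ ?_ ?_ ?_
    · intro a _ b _ hab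
      funext v
      have := congrFun hab v.1
      simpa [v.2] using this
    · intro a _; exact Finset.mem_coe.mpr (Finset.mem_univ _)
    · intro u _ hu
      by_cases hsu : ∀ v, v ∉ X → s v = u v
      · exfalso
        apply hu
        refine ⟨fun v => u v, Finset.mem_coe.mpr (Finset.mem_univ _), ?_⟩
        funext v
        by_cases hv : v ∈ X
        · simp [hv]
        · simp [hv, hsu v hv]
      · have : embMat X M s u = 0 := if_neg hsu
        rw [this, zero_mul]
    · intro a _
      have e1 : embMat X M s (fun v => if h : v ∈ X then a ⟨v, h⟩ else s v) =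
          M (fun v => s v) a := by
        unfold embMat
        rw [if_pos (fun v hv => by simp [hv])]
        congr 1
        funext v
        simp
      have e2 : embMat X N (fun v => if h : v ∈ X then a ⟨v, h⟩ else s v) t =
          N a (fun v => t v) := by
        unfold embMat
        rw [if_pos (fun v hv => by simp [hv, hst v hv])]
        congr 1
        funext v
        simp
      simp only [e1, e2]
  · have h1 : embMat X (M * N) s t = 0 := if_neg hst
    rw [h1]
    symm
    refine Finset.sum_eq_zero fun u _ => ?_
    by_cases hsu : ∀ v, v ∉ X → s v = u v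
    · by_cases hut : ∀ v, v ∉ X → u v = t v
      · exact absurd (fun v hv => (hsu v hv).trans (hut v hv)) hst
      · have : embMat X N u t = 0 := if_neg hut
        rw [this, mul_zero]
    · have : embMat X M s u = 0 := if_neg hsu
      rw [this, zero_mul]

lemma emb_mul (X : Finset (Site L)) (M N : Matrix (X → Fin d) (X → Fin d) ℂ) :
    emb X (M * N) = emb X M * emb X N := by
  rw [emb_eq, emb_eq, emb_eq, embMat_mul, map_mul]

lemma emb_one (X : Finset (Site L)) :
    emb X (1 : Matrix (X → Fin d) (X → Fin d) ℂ) = 1 := by
  classical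
  rw [emb_eq]
  have h : embMat X (1 : Matrix (X → Fin d) (X → Fin d) ℂ) = 1 := by
    ext s t
    unfold embMat
    rw [Matrix.one_apply, Matrix.one_apply]
    by_cases hst : s = t
    · subst hst
      simp
    · rw [if_neg hst]
      split_ifs with h1 h2
      · exfalso
        apply hst
        funext v
        by_cases hv : v ∈ X
        · exact congrFun h2 ⟨v, hv⟩
        · exact h1 v hv
      · rfl
      · rfl
  rw [h, map_one]

lemma emb_sub (X : Finset (Site L)) (M N : Matrix (X → Fin d) (X → Fin d) ℂ) :
    emb X (M - N) = emb X M - emb X N := by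
  rw [emb_eq, emb_eq, emb_eq, ← map_sub]
  congr 1
  ext s t
  rw [Matrix.sub_apply]
  unfold embMat
  split_ifs
  · rw [Matrix.sub_apply]
  · rw [sub_zero]

lemma emb_sum {ι : Type} (s : Finset ι) (X : Finset (Site L))
    (M : ι → Matrix (X → Fin d) (X → Fin d) ℂ) : emb X (∑ i ∈ s, M i) = ∑ i ∈ s, emb X (M i) := by
  have h : ∀ i, emb X (M i) = Matrix.toEuclideanCLM (𝕜 := ℂ) (n := Conf d L) (embMat X (M i)) :=
    fun i => rfl
  simp only [h]
  rw [emb_eq, ← map_sum]
  congr 1
  ext a b
  rw [Matrix.sum_apply]
  unfold embMat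
  split_ifs
  · rw [Matrix.sum_apply]
  · rw [Finset.sum_const_zero]

lemma emb_smul (X : Finset (Site L)) (c : ℂ) (M : Matrix (X → Fin d) (X → Fin d) ℂ) :
    emb X (c • M) = c • emb X M := by
  rw [emb_eq, emb_eq, ← map_smul]
  congr 1
  ext s t
  rw [Matrix.smul_apply]
  unfold embMat
  split_ifs
  · rw [Matrix.smul_apply]
  · rw [smul_zero]

lemma star_emb (X : Finset (Site L)) (M : Matrix (X → Fin d) (X → Fin d) ℂ) :
    star (emb X M) = emb X M.conjTranspose := by
  rw [emb_eq, emb_eq, ← map_star]
  congr 1
  ext s t
  rw [Matrix.star_apply]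
  unfold embMat
  by_cases h : ∀ v, v ∉ X → s v = t v
  · rw [if_pos (fun v hv => (h v hv).symm), if_pos h, Matrix.conjTranspose_apply]
  · rw [if_neg (fun h' => h fun v hv => (h' v hv).symm), if_neg h, star_zero]

lemma emb_localOn (X : Finset (Site L)) (M : Matrix (X → Fin d) (X → Fin d) ℂ) :
    LocalOn X (emb X M) := by
  classical
  rw [localOn_iff]
  intro u hu a b s s'
  rw [emb_mat, emb_mat]
  have e1 : ∀ (t : Conf d L) (c : Fin d), (fun v : X => Function.update t u c v) =
      fun v : X => t v := by
    intro t c
    funext v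
    have hvu : v.1 ≠ u := by
      intro h
      exact hu (h ▸ v.2)
    exact Function.update_of_ne hvu _ _
  rw [e1, e1]
  have key : (s u = a ∧ ∀ w, w ∉ X → Function.update s u b w = s' w) ↔
      (s' u = b ∧ ∀ w, w ∉ X → s w = Function.update s' u a w) := by
    constructor
    · rintro ⟨h1, h2⟩
      have h3 := h2 u hu
      rw [Function.update_self] at h3
      refine ⟨h3.symm, fun w hw => ?_⟩
      by_cases hwu : w = u
      · rw [hwu, Function.update_self, h1]
      · have := h2 w hw
        rw [Function.update_of_ne hwu] at this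
        rw [Function.update_of_ne hwu, this]
    · rintro ⟨h1, h2⟩
      have h3 := h2 u hu
      rw [Function.update_self] at h3
      refine ⟨h3, fun w hw => ?_⟩
      by_cases hwu : w = u
      · rw [hwu, Function.update_self, h1]
      · have := h2 w hw
        rw [Function.update_of_ne hwu] at this
        rw [Function.update_of_ne hwu, this]
  rw [← ite_and, ← ite_and]
  by_cases hk : s u = a ∧ ∀ w, w ∉ X → Function.update s u b w = s' w
  · rw [if_pos hk, if_pos (key.mp hk)]
  · rw [if_neg hk, if_neg (fun h => hk (key.mpr h))]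

end Pool.Agent.FFG.EC
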