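import Pool.Agent.FFG.EC.Defs

/-!
# Entropy criterion: functions of a Hermitian matrix
-/

open Finset
open scoped InnerProductSpace

set_option autoImplicit false
set_option linter.unusedSectionVars false
set_option linter.unusedVariables false

namespace Pool.Agent.FFG.EC

open Pool.Agent.PEPS953 Pool.Agent.PepsX Pool.Agent.PepsY Pool.Agent.FFG
open Pool.Agent.FFG.EPlain (glue rdm rdm_isHermitian entropy boxAt IsDecomp condSum)

section EC1

variable {n : Type} [Fintype n] [DecidableEq n] {A : Matrix n n ℂ} (hA : A.IsHermitian)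

private lemma fnc_star_mul : star (hA.eigenvectorUnitary : Matrix n n ℂ) *
    (hA.eigenvectorUnitary : Matrix n n ℂ) = 1 :=
  Unitary.coe_star_mul_self _

private lemma fnc_mul_star : (hA.eigenvectorUnitary : Matrix n n ℂ) *
    star (hA.eigenvectorUnitary : Matrix n n ℂ) = 1 :=
  Unitary.coe_mul_star_self _

lemma fnc_mul (f g : ℝ → ℂ) : fnc hA f * fnc hA g = fnc hA (fun x => f x * g x) := by
  unfold fnc
  rw [← Matrix.diagonal_mul_diagonal]
  have h := fnc_star_mul hA
  calc _ = (hA.eigenvectorUnitary : Matrix n n ℂ) *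
        Matrix.diagonal (fun i => f (hA.eigenvalues i)) *
        (star (hA.eigenvectorUnitary : Matrix n n ℂ) * (hA.eigenvectorUnitary : Matrix n n ℂ)) *
        Matrix.diagonal (fun i => g (hA.eigenvalues i)) *
        star (hA.eigenvectorUnitary : Matrix n n ℂ) := by simp only [Matrix.mul_assoc]
    _ = _ := by rw [h, Matrix.mul_one]; simp only [Matrix.mul_assoc]

lemma fnc_conjTranspose (f : ℝ → ℂ) :
    (fnc hA f).conjTranspose = fnc hA (fun x => star (f x)) := by
  unfold fnc
  rw [Matrix.conjTranspose_mul, Matrix.conjTranspose_mul, Matrix.star_eq_conjTranspose,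
    Matrix.conjTranspose_conjTranspose, Matrix.diagonal_conjTranspose, Matrix.mul_assoc]
  rfl

lemma fnc_one : fnc hA (fun _ => 1) = 1 := by
  unfold fnc
  rw [Matrix.diagonal_one, Matrix.mul_one, fnc_mul_star]

lemma fnc_id : fnc hA (fun x => (x : ℂ)) = A := by
  conv_rhs => rw [hA.spectral_theorem]
  rfl

lemma fnc_sub (f g : ℝ → ℂ) : fnc hA (fun x => f x - g x) = fnc hA f - fnc hA g := by
  unfold fnc
  rw [← Matrix.sub_mul, ← Matrix.mul_sub, Matrix.diagonal_sub]

lemma fnc_congr {f g : ℝ → ℂ} (h : ∀ i, f (hA.eigenvalues i) = g (hA.eigenvalues i)) :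
    fnc hA f = fnc hA g := by
  unfold fnc
  rw [show (fun i => f (hA.eigenvalues i)) = fun i => g (hA.eigenvalues i) from funext h]

lemma fnc_eq_sum (f : ℝ → ℂ) : fnc hA f = ∑ i, f (hA.eigenvalues i) • eproj hA i := by
  unfold fnc eproj
  have h : Matrix.diagonal (fun i => f (hA.eigenvalues i)) =
      ∑ i, f (hA.eigenvalues i) • (Matrix.single i i 1 : Matrix n n ℂ) := by
    ext a b
    rw [Matrix.sum_apply]
    simp only [Matrix.smul_apply, Matrix.single_apply, smul_eq_mul, mul_ite, mul_one, mul_zero,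
      Matrix.diagonal_apply]
    by_cases hab : a = b
    · subst hab
      simp
    · rw [if_neg hab]
      symm
      apply Finset.sum_eq_zero
      intro i _
      rw [if_neg]
      rintro ⟨rfl, h2⟩
      exact hab h2
  rw [h, Matrix.mul_sum, Matrix.sum_mul]
  simp only [Matrix.mul_smul, Matrix.smul_mul]

lemma trace_fnc_mul (f : ℝ → ℂ) :
    (fnc hA f * A).trace = ∑ i, f (hA.eigenvalues i) * (hA.eigenvalues i : ℂ) := by
  have h : fnc hA f * A = fnc hA (fun x => f x * (x : ℂ)) := by
    rw [← fnc_mul hA f (fun x => (x : ℂ)), fnc_id hA]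
  rw [h]
  unfold fnc
  rw [Matrix.trace_mul_comm, ← Matrix.mul_assoc, fnc_star_mul, Matrix.one_mul,
    Matrix.trace_diagonal]

end EC1

end Pool.Agent.FFG.EC
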