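import Pool.Agent.FFG.EC.Defs

/-!
# Entropy criterion: expectations and positivity of reduced density matrices
-/

open Finset
open scoped InnerProductSpace

set_option autoImplicit false
set_option linter.unusedSectionVars false
set_option linter.unusedVariables false

namespace Pool.Agent.FFG.EC

open Pool.Agent.PEPS953 Pool.Agent.PepsX Pool.Agent.PepsY Pool.Agent.FFG
open Pool.Agent.FFG.EPlain (glue rdm rdm_isHermitian entropy boxAt IsDecomp condSum)

variable {d L : ℕ} [NeZero L]

private lemma mgl_sum (X : Finset (Site L)) (F : Conf d L → ℂ) :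
    ∑ s, F s = ∑ w : {v // v ∉ X} → Fin d, ∑ a : X → Fin d, F (glue X a w) := by
  rw [← (Equiv.piEquivPiSubtypeProd (fun v => v ∈ X) (fun _ => Fin d)).symm.sum_comp,
    Fintype.sum_prod_type, sum_comm]
  rfl

private lemma mgl_in (X : Finset (Site L)) (a : X → Fin d) (w : {v // v ∉ X} → Fin d) :
    (fun v : X => glue X a w v) = a := by
  funext v
  simp [glue]

private lemma mgl_out (X : Finset (Site L)) (a b : X → Fin d) (w w' : {v // v ∉ X} → Fin d) :
    (∀ v, v ∉ X → glue X a w v = glue X b w' v) ↔ w = w' := by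
  constructor
  · intro h
    funext v
    have h1 := h v.1 v.2
    simpa [glue, v.2] using h1
  · rintro rfl v hv
    simp [glue, hv]

/-- `⟨Ψ, M_X Ψ⟩ = Tr (M ρ_X)`. -/
theorem inner_emb (Ψ : Hil d L) (X : Finset (Site L)) (M : Matrix (X → Fin d) (X → Fin d) ℂ) :
    ⟪Ψ, emb X M Ψ⟫_ℂ = (M * rdm Ψ.ofLp X).trace := by
  have h1 : ⟪Ψ, emb X M Ψ⟫_ℂ = ∑ s, (∑ t, (if ∀ v, v ∉ X → s v = t v then
      M (fun v => s v) (fun v => t v) else 0) * Ψ t) * star (Ψ s) := by
    rw [PiLp.inner_apply]
    rfl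
  have h2 : ∀ (a : X → Fin d) (w : {v // v ∉ X} → Fin d),
      (∑ t, (if ∀ v, v ∉ X → glue X a w v = t v then
        M (fun v => glue X a w v) (fun v => t v) else 0) * Ψ t) =
      ∑ b : X → Fin d, M a b * Ψ (glue X b w) := by
    intro a w
    rw [mgl_sum X, Finset.sum_eq_single w]
    · refine sum_congr rfl fun b _ => ?_
      rw [if_pos ((mgl_out X a b w w).2 rfl), mgl_in, mgl_in]
    · intro w' _ hw'
      refine sum_eq_zero fun b _ => ?_
      rw [if_neg (fun h => hw' ((mgl_out X a b w w').1 h).symm), zero_mul]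
    · intro h
      exact absurd (mem_univ w) h
  rw [h1, mgl_sum X]
  simp only [h2]
  rw [sum_comm, Matrix.trace]
  refine sum_congr rfl fun a _ => ?_
  rw [Matrix.diag_apply, Matrix.mul_apply]
  simp only [rdm, sum_mul, mul_sum]
  rw [sum_comm]
  refine sum_congr rfl fun b _ => sum_congr rfl fun w _ => ?_
  rw [mul_assoc]

open scoped ComplexOrder in
theorem rdm_nonneg (Ψ : Hil d L) (X : Finset (Site L)) (i : X → Fin d) :
    0 ≤ (rdm_isHermitian Ψ.ofLp X).eigenvalues i := by
  have h1 : rdm Ψ.ofLp X =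
      (Matrix.of fun (a : X → Fin d) (w : {v // v ∉ X} → Fin d) => Ψ.ofLp (glue X a w)) *
      (Matrix.of fun (a : X → Fin d) (w : {v // v ∉ X} → Fin d) =>
        Ψ.ofLp (glue X a w)).conjTranspose := by
    ext a b
    rfl
  have h2 : (rdm Ψ.ofLp X).PosSemidef := by
    rw [h1]
    exact Matrix.posSemidef_self_mul_conjTranspose _
  exact h2.eigenvalues_nonneg i

end Pool.Agent.FFG.EC
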