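import Pool.Agent.FFG.EC.Fnc
import Pool.Agent.FFG.EC.Emb
import Pool.Agent.FFG.EC.Marginal

/-!
# Entropy criterion: functions of the reduced density matrices as operators
-/

open Finset
open scoped InnerProductSpace

set_option autoImplicit false
set_option linter.unusedSectionVars false
set_option linter.unusedVariables false

namespace Pool.Agent.FFG.EC

open Pool.Agent.PEPS953 Pool.Agent.PepsX Pool.Agent.PepsY Pool.Agent.FFG
open Pool.Agent.FFG.EPlain (glue rdm rdm_isHermitian entropy boxAt IsDecomp condSum)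

variable {d L : ℕ} [NeZero L]

lemma rf_mul (Ψ : Hil d L) (X : Finset (Site L)) (f g : ℝ → ℂ) :
    rf Ψ X f * rf Ψ X g = rf Ψ X (fun x => f x * g x) := by
  unfold rf
  rw [← emb_mul, fnc_mul]

lemma star_rf (Ψ : Hil d L) (X : Finset (Site L)) (f : ℝ → ℂ) :
    star (rf Ψ X f) = rf Ψ X (fun x => star (f x)) := by
  unfold rf
  rw [star_emb, fnc_conjTranspose]

lemma rf_localOn (Ψ : Hil d L) (X : Finset (Site L)) (f : ℝ → ℂ) : LocalOn X (rf Ψ X f) :=
  emb_localOn X _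

/-- depends only on the values at the points `x ≥ 0` -/
lemma rf_congr (Ψ : Hil d L) (X : Finset (Site L)) {f g : ℝ → ℂ} (h : ∀ x, 0 ≤ x → f x = g x) :
    rf Ψ X f = rf Ψ X g := by
  unfold rf
  rw [fnc_congr (rdm_isHermitian Ψ.ofLp X) fun i => h _ (rdm_nonneg Ψ X i)]

lemma rf_id (Ψ : Hil d L) (X : Finset (Site L)) :
    rf Ψ X (fun x => (x : ℂ)) = emb X (rdm Ψ.ofLp X) := by
  unfold rf
  rw [fnc_id]

private lemma Power_one (Ψ : Hil d L) (X : Finset (Site L)) : rf Ψ X (fun _ => 1) = 1 := by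
  unfold rf
  rw [fnc_one, emb_one]

private lemma Power_sub (Ψ : Hil d L) (X : Finset (Site L)) (f g : ℝ → ℂ) :
    rf Ψ X (fun x => f x - g x) = rf Ψ X f - rf Ψ X g := by
  unfold rf
  rw [fnc_sub, emb_sub]

private lemma Power_norm_sq (Ψ : Hil d L) (X : Finset (Site L)) (f : ℝ → ℂ) (x : Hil d L) :
    ((‖rf Ψ X f x‖ ^ 2 : ℝ) : ℂ) = ⟪x, rf Ψ X (fun x => star (f x) * f x) x⟫_ℂ := by
  rw [← rf_mul, ← star_rf, ContinuousLinearMap.mul_apply, ContinuousLinearMap.star_eq_adjoint,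
    ContinuousLinearMap.adjoint_inner_right, inner_self_eq_norm_sq_to_K]
  norm_cast

lemma norm_rf_le (Ψ : Hil d L) (X : Finset (Site L)) {f : ℝ → ℂ} (hf : ∀ x, ‖f x‖ ≤ 1)
    (x : Hil d L) : ‖rf Ψ X f x‖ ≤ ‖x‖ := by
  set g : ℝ → ℂ := fun x => ((Real.sqrt (1 - ‖f x‖ ^ 2) : ℝ) : ℂ) with hg
  have h1 : (fun x => star (g x) * g x) = fun x => (fun _ => (1 : ℂ)) x - (fun x => star (f x) * f x) x := by
    funext y
    have h2 : 0 ≤ 1 - ‖f y‖ ^ 2 := by
      have := hf y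
      have := norm_nonneg (f y)
      nlinarith
    have h3 : star (f y) * f y = ((‖f y‖ ^ 2 : ℝ) : ℂ) := by
      rw [mul_comm, Complex.star_def, Complex.mul_conj, Complex.normSq_eq_norm_sq]
    simp only [hg]
    rw [h3, Complex.star_def, Complex.conj_ofReal, ← Complex.ofReal_mul, Real.mul_self_sqrt h2]
    push_cast
    ring
  have h2 := Power_norm_sq Ψ X g x
  rw [h1, Power_sub, Power_one, ContinuousLinearMap.sub_apply, inner_sub_right,
    ← Power_norm_sq Ψ X f x, ContinuousLinearMap.one_apply, inner_self_eq_norm_sq_to_K] at h2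
  have h3 : ‖rf Ψ X g x‖ ^ 2 = ‖x‖ ^ 2 - ‖rf Ψ X f x‖ ^ 2 := by
    have h4 : ((‖rf Ψ X g x‖ ^ 2 : ℝ) : ℂ) = ((‖x‖ ^ 2 - ‖rf Ψ X f x‖ ^ 2 : ℝ) : ℂ) := by
      rw [h2]
      push_cast
      rfl
    exact_mod_cast h4
  have h4 := sq_nonneg ‖rf Ψ X g x‖
  exact le_of_sq_le_sq (by linarith) (norm_nonneg _)

lemma norm_pw_le {w : ℂ} (hw : w.re = 0) (x : ℝ) : ‖pw w x‖ ≤ 1 := by
  unfold pw
  split_ifs with h
  · simp
  · rw [Complex.norm_exp]
    simp [hw]

lemma pw_mul (w w' : ℂ) (x : ℝ) : pw w x * pw w' x = pw (w + w') x := by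
  unfold pw
  split_ifs with h
  · simp
  · rw [← Complex.exp_add]
    ring_nf

lemma star_pw (w : ℂ) (x : ℝ) : star (pw w x) = pw (star w) x := by
  unfold pw
  split_ifs with h
  · simp
  · rw [Complex.star_def, ← Complex.exp_conj, map_mul, Complex.conj_ofReal]

lemma pw_one {x : ℝ} (hx : 0 ≤ x) : pw 1 x = (x : ℂ) := by
  unfold pw
  split_ifs with h
  · simp [h]
  · rw [one_mul, ← Complex.ofReal_exp, Real.exp_log (lt_of_le_of_ne hx (Ne.symm h))]

lemma rf_supp (Ψ : Hil d L) (X : Finset (Site L)) : rf Ψ X (pw 0) Ψ = Ψ := by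
  set g : ℝ → ℂ := fun x => if x = 0 then 1 else 0 with hg
  have h1 : g = fun x => (fun _ => (1 : ℂ)) x - pw 0 x := by
    funext y
    simp only [hg, pw]
    split_ifs with h <;> simp
  have h2 : rf Ψ X g Ψ = Ψ - rf Ψ X (pw 0) Ψ := by
    rw [h1, Power_sub, Power_one]
    rfl
  have h3 := Power_norm_sq Ψ X g Ψ
  have h4 : (fun x => star (g x) * g x) = g := by
    funext y
    simp only [hg]
    split_ifs with h <;> simp
  rw [h4] at h3
  have h5 : ⟪Ψ, rf Ψ X g Ψ⟫_ℂ = 0 := by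
    unfold rf
    rw [inner_emb, trace_fnc_mul]
    refine sum_eq_zero fun i _ => ?_
    simp only [hg]
    split_ifs with h
    · rw [h]; simp
    · simp
  rw [h5] at h3
  have h6 : ‖rf Ψ X g Ψ‖ ^ 2 = 0 := by exact_mod_cast h3
  have h7 : rf Ψ X g Ψ = 0 := by
    rw [← norm_eq_zero]
    exact pow_eq_zero_iff (two_ne_zero) |>.1 h6
  rw [h7] at h2
  exact (sub_eq_zero.1 h2.symm).symm

lemma inner_rf_log (Ψ : Hil d L) (X : Finset (Site L)) :
    ⟪Ψ, rf Ψ X (fun x => (Real.log x : ℂ)) Ψ⟫_ℂ = -(entropy Ψ.ofLp X : ℂ) := by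
  unfold rf entropy
  rw [inner_emb, trace_fnc_mul]
  push_cast
  rw [← sum_neg_distrib]
  refine sum_congr rfl fun i _ => ?_
  rw [Real.negMulLog]
  push_cast
  ring

private lemma Power_sum (Ψ : Hil d L) (X : Finset (Site L)) (f : ℝ → ℂ) :
    rf Ψ X f = ∑ i, f ((rdm_isHermitian Ψ.ofLp X).eigenvalues i) •
      emb X (eproj (rdm_isHermitian Ψ.ofLp X) i) := by
  unfold rf
  rw [fnc_eq_sum, emb_sum]
  refine sum_congr rfl fun i _ => emb_smul _ _ _

private lemma Power_pw_deriv (c : ℂ) (x : ℝ) (z : ℂ) :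
    HasDerivAt (fun z : ℂ => pw (c * z) x) (c * (Real.log x : ℂ) * pw (c * z) x) z := by
  unfold pw
  split_ifs with h
  · simpa using hasDerivAt_const z (0 : ℂ)
  · have h1 : HasDerivAt (fun z : ℂ => c * z * (Real.log x : ℂ)) (c * (Real.log x : ℂ)) z := by
      have := ((hasDerivAt_id z).const_mul c).mul_const (Real.log x : ℂ)
      simpa using this
    have := h1.cexp
    rwa [mul_comm] at this

lemma rf_hasDerivAt (Ψ : Hil d L) (X : Finset (Site L)) (c : ℂ) :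
    HasDerivAt (fun z : ℂ => rf Ψ X (pw (c * z)))
      (c • rf Ψ X (fun x => (Real.log x : ℂ))) 0 := by
  have h1 : (fun z : ℂ => rf Ψ X (pw (c * z))) = fun z : ℂ =>
      ∑ i, pw (c * z) ((rdm_isHermitian Ψ.ofLp X).eigenvalues i) •
      emb X (eproj (rdm_isHermitian Ψ.ofLp X) i) := funext fun z => Power_sum Ψ X _
  rw [h1, Power_sum, smul_sum]
  refine HasDerivAt.fun_sum fun i _ => ?_
  have h2 := (Power_pw_deriv c ((rdm_isHermitian Ψ.ofLp X).eigenvalues i) 0).smul_const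
    (emb X (eproj (rdm_isHermitian Ψ.ofLp X) i))
  refine h2.congr_deriv ?_
  rw [smul_smul]
  congr 1
  rw [mul_zero, pw]
  split_ifs with h
  · rw [h]; simp
  · simp

lemma rf_differentiable (Ψ : Hil d L) (X : Finset (Site L)) (c : ℂ) :
    Differentiable ℂ (fun z : ℂ => rf Ψ X (pw (c * z))) := by
  have h1 : (fun z : ℂ => rf Ψ X (pw (c * z))) = fun z : ℂ =>
      ∑ i, pw (c * z) ((rdm_isHermitian Ψ.ofLp X).eigenvalues i) •
      emb X (eproj (rdm_isHermitian Ψ.ofLp X) i) := funext fun z => Power_sum Ψ X _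
  rw [h1]
  intro z
  exact (HasDerivAt.fun_sum fun i _ =>
    (Power_pw_deriv c ((rdm_isHermitian Ψ.ofLp X).eigenvalues i) z).smul_const
    (emb X (eproj (rdm_isHermitian Ψ.ofLp X) i))).differentiableAt

lemma rf_bounded (Ψ : Hil d L) (X : Finset (Site L)) (c : ℝ) :
    ∃ C : ℝ, ∀ z : ℂ, 0 ≤ z.re → z.re ≤ 1 → ‖rf Ψ X (pw ((c : ℂ) * z))‖ ≤ C := by
  refine ⟨∑ i, Real.exp (|c| * |Real.log ((rdm_isHermitian Ψ.ofLp X).eigenvalues i)|) *
    ‖emb X (eproj (rdm_isHermitian Ψ.ofLp X) i)‖, fun z h0 h1 => ?_⟩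
  rw [Power_sum]
  refine (norm_sum_le _ _).trans (sum_le_sum fun i _ => ?_)
  rw [norm_smul]
  refine mul_le_mul_of_nonneg_right ?_ (norm_nonneg _)
  unfold pw
  split_ifs with h
  · rw [norm_zero]; exact (Real.exp_pos _).le
  · rw [Complex.norm_exp, Real.exp_le_exp]
    set l := Real.log ((rdm_isHermitian Ψ.ofLp X).eigenvalues i)
    have h2 : ((c : ℂ) * z * (l : ℂ)).re = c * z.re * l := by
      simp
    rw [h2]
    refine (le_abs_self _).trans ?_
    rw [abs_mul, abs_mul, abs_of_nonneg h0]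
    have h3 : |c| * z.re ≤ |c| := by nlinarith [abs_nonneg c]
    exact mul_le_mul_of_nonneg_right h3 (abs_nonneg _)

end Pool.Agent.FFG.EC
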