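import Pool.Agent.FFG.EC.PTrace
import Pool.Agent.FFG.EC.Power

/-!
# The Hilbert-Schmidt norm of the product on the line of real part one
-/

open Finset
open scoped InnerProductSpace

set_option autoImplicit false
set_option linter.unusedSectionVars false
set_option linter.unusedVariables false

namespace Pool.Agent.FFG.EC

open Pool.Agent.PEPS953 Pool.Agent.PepsX Pool.Agent.PepsY Pool.Agent.FFG
open Pool.Agent.FFG.EPlain (glue rdm rdm_isHermitian entropy boxAt IsDecomp condSum)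

variable {d L : ℕ} [NeZero L]

theorem tprod_localOn (Ψ : Hil d L) {A B : ℕ → Finset (Site L)} {m : ℕ}
    (hB : ∀ j < m, ∀ v ∈ B j, ∃ i < j, v ∈ A i) (z : ℂ) {k : ℕ} (hk : k ≤ m) :
    LocalOn ((range k).biUnion A) (tprod Ψ A B z k) := by
  induction k with
  | zero => exact localOn_one _
  | succ k ih =>
    have ih' := ih (by omega)
    have h1 : (range k).biUnion A ⊆ (range (k + 1)).biUnion A := by
      intro v hv
      obtain ⟨i, hi, hvi⟩ := mem_biUnion.mp hv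
      exact mem_biUnion.mpr ⟨i, mem_range.mpr (lt_trans (mem_range.mp hi) (Nat.lt_succ_self k)), hvi⟩
    have h2 : B k ⊆ (range (k + 1)).biUnion A := by
      intro v hv
      obtain ⟨i, hi, hvi⟩ := hB k (by omega) v hv
      exact mem_biUnion.mpr ⟨i, mem_range.mpr (by omega), hvi⟩
    have h3 : A k ⊆ (range (k + 1)).biUnion A := by
      intro v hv
      exact mem_biUnion.mpr ⟨k, mem_range.mpr (Nat.lt_succ_self k), hv⟩
    exact LocalOn.mul (LocalOn.mul ((rf_localOn Ψ _ _).mono (union_subset h3 h2))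
      ((rf_localOn Ψ _ _).mono h2)) (ih'.mono h1)

/-- The exponents in the Hilbert-Schmidt norm. -/
private lemma hs_exp {z : ℂ} (hz : z.re = 1) : star (z / 2) + z / 2 = 1 := by
  apply Complex.ext
  · simp [hz]
    norm_num
  · simp
    ring

private lemma hs_exp' {z : ℂ} (hz : z.re = 1) : star (-z / 2) + -z / 2 = -1 := by
  have h := hs_exp hz
  have e : -z / 2 = -(z / 2) := by ring
  rw [e, star_neg, ← neg_add, h]

private lemma hs_left (Ψ : Hil d L) (X : Finset (Site L)) {z : ℂ} (hz : z.re = 1) (v : Hil d L) :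
    ⟪v, emb X (rdm Ψ.ofLp X) v⟫_ℂ = ((‖rf Ψ X (pw (z / 2)) v‖ ^ 2 : ℝ) : ℂ) := by
  have h1 : star (rf Ψ X (pw (z / 2))) * rf Ψ X (pw (z / 2)) = emb X (rdm Ψ.ofLp X) := by
    rw [star_rf, rf_mul, ← rf_id]
    refine rf_congr Ψ X fun x hx => ?_
    rw [star_pw, pw_mul, hs_exp hz, pw_one hx]
  rw [← h1]
  change ⟪v, star (rf Ψ X (pw (z / 2))) (rf Ψ X (pw (z / 2)) v)⟫_ℂ = _
  rw [ContinuousLinearMap.star_eq_adjoint, ContinuousLinearMap.adjoint_inner_right,
    inner_self_eq_norm_sq_to_K]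
  norm_cast

private lemma hs_right (Ψ : Hil d L) (X : Finset (Site L)) {z : ℂ} (hz : z.re = 1) (v : Hil d L) :
    ‖⟪rf Ψ X (pw (-z / 2)) v, emb X (rdm Ψ.ofLp X) (rf Ψ X (pw (-z / 2)) v)⟫_ℂ‖ ≤ ‖v‖ ^ 2 := by
  have h1 : star (rf Ψ X (pw (-z / 2))) * (emb X (rdm Ψ.ofLp X) * rf Ψ X (pw (-z / 2))) =
      rf Ψ X (pw 0) := by
    rw [← rf_id, rf_mul, star_rf, rf_mul]
    refine rf_congr Ψ X fun x hx => ?_
    rw [star_pw, ← pw_one hx, mul_left_comm, pw_mul, pw_mul, hs_exp' hz]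
    norm_num
  have h2 : ⟪rf Ψ X (pw (-z / 2)) v, emb X (rdm Ψ.ofLp X) (rf Ψ X (pw (-z / 2)) v)⟫_ℂ =
      ⟪v, rf Ψ X (pw 0) v⟫_ℂ := by
    rw [← h1]
    change _ = ⟪v, star (rf Ψ X (pw (-z / 2)))
      (emb X (rdm Ψ.ofLp X) (rf Ψ X (pw (-z / 2)) v))⟫_ℂ
    rw [ContinuousLinearMap.star_eq_adjoint, ContinuousLinearMap.adjoint_inner_right]
  rw [h2]
  refine (norm_inner_le_norm _ _).trans ?_
  rw [sq]
  exact mul_le_mul_of_nonneg_left
    (norm_rf_le Ψ X (fun x => norm_pw_le (by simp) x) v) (norm_nonneg v)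

/-- One factor. -/
private lemma hs_step (Ψ : Hil d L) {A B : Finset (Site L)} (hAB : Disjoint A B) {z : ℂ}
    (hz : z.re = 1) {T : Hil d L →L[ℂ] Hil d L} (hT : LocalOn (univ \ A) T) :
    (d : ℝ) ^ (#A) * ∑ s : Conf d L, ‖(fac Ψ A B z * T) (bvec s)‖ ^ 2 ≤
      ∑ s : Conf d L, ‖T (bvec s)‖ ^ 2 := by
  have hB : B ⊆ univ \ A := by
    intro v hv
    rw [mem_sdiff]
    exact ⟨mem_univ _, fun hvA => Finset.disjoint_left.mp hAB hvA hv⟩
  have hY : LocalOn (univ \ A) (rf Ψ B (pw (-z / 2)) * T) :=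
    LocalOn.mul ((rf_localOn Ψ B _).mono hB) hT
  have h1 := trp_rdm Ψ hAB hY
  have h2 : trp (emb (A ∪ B) (rdm Ψ.ofLp (A ∪ B))) (rf Ψ B (pw (-z / 2)) * T) =
      ((∑ s : Conf d L, ‖(fac Ψ A B z * T) (bvec s)‖ ^ 2 : ℝ) : ℂ) := by
    unfold trp
    rw [Complex.ofReal_sum]
    refine Finset.sum_congr rfl fun s _ => ?_
    rw [hs_left Ψ (A ∪ B) hz]
    rfl
  have h3 : ‖trp (emb B (rdm Ψ.ofLp B)) (rf Ψ B (pw (-z / 2)) * T)‖ ≤
      ∑ s : Conf d L, ‖T (bvec s)‖ ^ 2 := by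
    unfold trp
    refine (norm_sum_le _ _).trans (Finset.sum_le_sum fun s _ => ?_)
    exact hs_right Ψ B hz (T (bvec s))
  rw [h2] at h1
  rw [← h1] at h3
  refine le_trans (le_of_eq ?_) h3
  rw [norm_mul, norm_pow, Complex.norm_natCast, Complex.norm_real, Real.norm_of_nonneg]
  exact Finset.sum_nonneg fun s _ => sq_nonneg _

theorem hs_le (Ψ : Hil d L) {A B : ℕ → Finset (Site L)} {m : ℕ} (hd : 0 < d)
    (hA : ∀ i < m, ∀ j < m, i ≠ j → Disjoint (A i) (A j))
    (hB : ∀ j < m, ∀ v ∈ B j, ∃ i < j, v ∈ A i) (hcov : ∀ v, ∃ j < m, v ∈ A j) (t : ℝ) :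
    ∑ s : Conf d L, ‖tprod Ψ A B (1 + (t : ℂ) * Complex.I) m (bvec s)‖ ^ 2 ≤ 1 := by
  have hz : (1 + (t : ℂ) * Complex.I).re = 1 := by simp
  generalize (1 + (t : ℂ) * Complex.I) = z at hz
  have key : ∀ k ≤ m, (d : ℝ) ^ (∑ i ∈ range k, #(A i)) *
      ∑ s : Conf d L, ‖tprod Ψ A B z k (bvec s)‖ ^ 2 ≤ (d : ℝ) ^ (Fintype.card (Site L)) := by
    intro k
    induction k with
    | zero =>
      intro _
      rw [range_zero, sum_empty, pow_zero, one_mul]
      have h0 : ∀ s : Conf d L, ‖tprod Ψ A B z 0 (bvec s)‖ ^ 2 = 1 := by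
        intro s
        change ‖bvec s‖ ^ 2 = 1
        unfold bvec
        rw [EuclideanSpace.norm_single, norm_one, one_pow]
      rw [Finset.sum_congr rfl fun s _ => h0 s, sum_const, card_univ, nsmul_eq_mul, mul_one,
        Fintype.card_fun, Fintype.card_fin, Nat.cast_pow]
    | succ k ih =>
      intro hk
      have hAB : Disjoint (A k) (B k) := by
        rw [Finset.disjoint_left]
        intro v hvA hvB
        obtain ⟨i, hi, hvi⟩ := hB k (by omega) v hvB
        exact Finset.disjoint_left.mp (hA i (by omega) k (by omega) (by omega)) hvi hvA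
      have hT : LocalOn (univ \ A k) (tprod Ψ A B z k) := by
        refine (tprod_localOn Ψ hB z (by omega : k ≤ m)).mono ?_
        intro v hv
        obtain ⟨i, hi, hvi⟩ := mem_biUnion.mp hv
        have hi' := mem_range.mp hi
        rw [mem_sdiff]
        exact ⟨mem_univ _, fun hvA =>
          Finset.disjoint_left.mp (hA i (by omega) k (by omega) (by omega)) hvi hvA⟩
      have h1 := hs_step Ψ hAB hz hT
      rw [sum_range_succ, pow_add, mul_assoc]
      exact (mul_le_mul_of_nonneg_left h1 (by positivity)).trans (ih (by omega))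
  have h2 := key m le_rfl
  have h3 : ∑ i ∈ range m, #(A i) = Fintype.card (Site L) := by
    rw [← card_univ, ← card_biUnion]
    · congr 1
      rw [Finset.eq_univ_iff_forall]
      intro v
      obtain ⟨j, hj, hv⟩ := hcov v
      exact mem_biUnion.mpr ⟨j, mem_range.mpr hj, hv⟩
    · intro i hi j hj hij
      exact hA i (mem_range.mp hi) j (mem_range.mp hj) hij
  rw [h3] at h2
  have hpos : (0 : ℝ) < (d : ℝ) ^ (Fintype.card (Site L)) := by
    have : (0 : ℝ) < d := Nat.cast_pos.mpr hd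
    positivity
  exact le_of_mul_le_mul_left (h2.trans (le_of_eq (mul_one _).symm)) hpos

end Pool.Agent.FFG.EC
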