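import Mathlib

open Finset
open scoped InnerProductSpace

set_option autoImplicit false
set_option linter.unusedSectionVars false
set_option linter.unusedVariables false

namespace Pool.Agent.FFG.EC

theorem three_lines {g : ℂ → ℂ} (hg : Differentiable ℂ g) {C : ℝ}
    (hC : ∀ z : ℂ, 0 ≤ z.re → z.re ≤ 1 → ‖g z‖ ≤ C)
    (h0 : ∀ t : ℝ, ‖g ((t : ℂ) * Complex.I)‖ ≤ 1) {κ : ℝ} (hd : HasDerivAt g (-(κ : ℂ)) 0)
    (hg0 : g 0 = 1) {η : ℝ} (hη : 0 < η) :
    ∃ t : ℝ, Real.exp (-κ - η) ≤ ‖g (1 + (t : ℂ) * Complex.I)‖ := by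
  by_contra hcon
  push Not at hcon
  -- the three lines bound on the real segment
  have hbound : ∀ θ : ℝ, 0 ≤ θ → θ ≤ 1 → ‖g (θ : ℂ)‖ ≤ Real.exp (θ * (-κ - η)) := by
    intro θ h1 h2
    have h := Complex.HadamardThreeLines.norm_le_interp_of_mem_verticalClosedStrip₀₁' g
      (z := (θ : ℂ)) (a := 1) (b := Real.exp (-κ - η)) (by
        rw [Complex.HadamardThreeLines.verticalClosedStrip]
        exact ⟨by simpa using h1, by simpa using h2⟩)
      hg.diffContOnCl (by
        refine ⟨C, ?_⟩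
        rintro _ ⟨z, hz, rfl⟩
        exact hC z hz.1 hz.2) (by
        intro z hz
        have hz' : z.re = 0 := by simpa using hz
        have h3 : z = (z.im : ℂ) * Complex.I := by
          apply Complex.ext <;> simp [hz']
        rw [h3]
        exact h0 z.im) (by
        intro z hz
        have hz' : z.re = 1 := by simpa using hz
        have h3 : z = 1 + (z.im : ℂ) * Complex.I := by
          apply Complex.ext <;> simp [hz']
        rw [h3]
        exact (hcon z.im).le)
    rw [Real.one_rpow, one_mul, Complex.ofReal_re, ← Real.exp_mul] at h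
    rwa [mul_comm] at h
  -- derivatives at zero
  have hd1 : HasDerivAt (fun θ : ℝ => (g (θ : ℂ)).re) (-κ) 0 := by
    have h4 : HasDerivAt g (-(κ : ℂ)) ((0 : ℝ) : ℂ) := by simpa using hd
    have h5 := h4.real_of_complex
    simpa using h5
  have hd2 : HasDerivAt (fun θ : ℝ => Real.exp (θ * (-κ - η))) (-κ - η) 0 := by
    have h6 : HasDerivAt (fun θ : ℝ => θ * (-κ - η)) (-κ - η) 0 := by
      simpa using (hasDerivAt_id (0 : ℝ)).mul_const (-κ - η)
    have h7 := h6.exp
    simpa using h7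
  have hd3 : HasDerivAt (fun θ : ℝ => (g (θ : ℂ)).re - Real.exp (θ * (-κ - η))) η 0 := by
    have := hd1.sub hd2
    convert! this using 1
    ring
  have h8 := hd3.tendsto_slope
  have h9 : ∀ᶠ θ in nhdsWithin (0 : ℝ) {0}ᶜ,
      0 < slope (fun θ : ℝ => (g (θ : ℂ)).re - Real.exp (θ * (-κ - η))) 0 θ :=
    h8.eventually (lt_mem_nhds hη)
  rw [eventually_nhdsWithin_iff, Metric.eventually_nhds_iff] at h9
  obtain ⟨ε, hε, h10⟩ := h9
  set θ : ℝ := min (ε / 2) 1 with hθ
  have hθ0 : 0 < θ := lt_min (by positivity) one_pos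
  have hθε : θ < ε := lt_of_le_of_lt (min_le_left _ _) (by linarith)
  have h11 := h10 (y := θ) (by rw [Real.dist_eq, sub_zero, abs_of_pos hθ0]; exact hθε)
    (by simp [hθ0.ne'])
  rw [slope_def_field] at h11
  have h12 : (g ((0 : ℝ) : ℂ)).re - Real.exp (0 * (-κ - η)) = 0 := by
    simp [hg0]
  rw [h12, sub_zero, sub_zero] at h11
  have h13 : 0 < (g (θ : ℂ)).re - Real.exp (θ * (-κ - η)) := by
    have := mul_pos h11 hθ0
    rwa [div_mul_cancel₀ _ hθ0.ne'] at this
  have h14 := hbound θ hθ0.le (min_le_right _ _)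
  have h15 := Complex.re_le_norm (g (θ : ℂ))
  linarith

end Pool.Agent.FFG.EC
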