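import Pool.Agent.FFG.EC.Defs
import Pool.Agent.FFG.PepoProd

/-!
# EC10: products of local operators whose supports overlap
-/

open Finset
open scoped InnerProductSpace

set_option autoImplicit false
set_option linter.unusedSectionVars false
set_option linter.unusedVariables false

namespace Pool.Agent.FFG.EC

open Pool.Agent.PEPS953 Pool.Agent.PepsX Pool.Agent.PepsY Pool.Agent.FFG

variable {d L : ℕ} [NeZero L]

/-- The chain condition at a site: the values of the successive positions fit together. -/
def PepoChain : (n : ℕ) → (K : Fin n → Finset (Site L)) →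
    (∀ j, (K j → Fin d) × (K j → Fin d)) → (u : Site L) → Fin d → Fin d → Prop
  | 0, _, _, _, σ, σ' => σ = σ'
  | n + 1, K, x, u, σ, σ' =>
    if h : u ∈ K 0 then (x 0).1 ⟨u, h⟩ = σ ∧
      PepoChain n (fun j => K j.succ) (fun j => x j.succ) u ((x 0).2 ⟨u, h⟩) σ'
    else PepoChain n (fun j => K j.succ) (fun j => x j.succ) u σ σ'

lemma Pepo_chain_congr (n : ℕ) (K : Fin n → Finset (Site L))
    (x y : ∀ j, (K j → Fin d) × (K j → Fin d)) (u : Site L) (h : ∀ j, u ∈ K j → x j = y j)
    (σ σ' : Fin d) : PepoChain n K x u σ σ' ↔ PepoChain n K y u σ σ' := by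
  induction n generalizing σ with
  | zero => exact Iff.rfl
  | succ n ih =>
    have ih' := fun τ => ih (fun j => K j.succ) (fun j => x j.succ) (fun j => y j.succ)
      (fun j hj => h j.succ hj) τ
    unfold PepoChain
    by_cases h0 : u ∈ K 0
    · rw [dif_pos h0, dif_pos h0, h 0 h0, ih']
    · rw [dif_neg h0, dif_neg h0, ih']

open scoped Classical in
lemma Pepo_formula (n : ℕ) (K : Fin n → Finset (Site L)) (O : Fin n → Hil d L →L[ℂ] Hil d L)
    (m : ∀ j, (K j → Fin d) → (K j → Fin d) → ℂ)
    (hm : ∀ j s s', mat (O j) s s' = if ∀ u, u ∉ K j → s u = s' u then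
      m j (fun u => s u) (fun u => s' u) else 0) (s s' : Conf d L) :
    mat (List.ofFn O).prod s s' = ∑ x : (∀ j, (K j → Fin d) × (K j → Fin d)),
      (∏ j, m j (x j).1 (x j).2) *
        ∏ u, (if PepoChain n K x u (s u) (s' u) then (1 : ℂ) else 0) := by
  induction n generalizing s with
  | zero =>
    rw [List.ofFn_zero, List.prod_nil, FFG11_mat_one, Fintype.sum_unique]
    simp only [Finset.univ_eq_empty, Finset.prod_empty, one_mul]
    rw [Finset.prod_ite_zero, Finset.prod_const_one]
    congr 1
    rw [eq_iff_iff, funext_iff]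
    unfold PepoChain
    simp only [Finset.mem_univ, true_imp_iff]
  | succ n ih =>
    rw [List.ofFn_succ, List.prod_cons, FFG11_mat_mul]
    simp_rw [ih (fun j => K j.succ) (fun j => O j.succ) (fun j => m j.succ)
      (fun j => hm j.succ)]
    rw [← (Fin.consEquiv fun j : Fin (n + 1) => (K j → Fin d) × (K j → Fin d)).sum_comp,
      Fintype.sum_prod_type, Fintype.sum_prod_type]
    rw [Finset.sum_eq_single (fun u : K 0 => s u)]
    · symm
      refine Finset.sum_of_injOn (fun (b : K 0 → Fin d) (u : Site L) =>
        if h : u ∈ K 0 then b ⟨u, h⟩ else s u) ?_ ?_ ?_ ?_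
      · intro b _ b' _ hbb
        funext u
        have h1 := congrFun hbb u.1
        simp only at h1
        rw [dif_pos u.2, dif_pos u.2] at h1
        exact h1
      · intro b _
        exact Finset.mem_coe.mpr (Finset.mem_univ _)
      · intro t _ ht
        rw [hm, if_neg, zero_mul]
        intro h1
        apply ht
        refine ⟨fun u => t u, Finset.mem_coe.mpr (Finset.mem_univ _), ?_⟩
        funext u
        by_cases hu : u ∈ K 0
        · simp only
          rw [dif_pos hu]
        · simp only
          rw [dif_neg hu]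
          exact h1 u hu
      · intro b _
        rw [hm, if_pos, Finset.mul_sum]
        · refine Finset.sum_congr rfl fun x _ => ?_
          have e1 : (fun u : K 0 => if h : (u : Site L) ∈ K 0 then b ⟨u, h⟩ else s u) = b := by
            funext u
            rw [dif_pos u.2]
          rw [e1, ← mul_assoc]
          congr 1
          · rw [Fin.prod_univ_succ]
            rfl
          · refine Finset.prod_congr rfl fun u _ => ?_
            congr 1
            rw [eq_iff_iff]
            conv_lhs => unfold PepoChain
            beta_reduce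
            by_cases hu : u ∈ K 0
            · rw [dif_pos hu, dif_pos hu]
              exact ⟨fun h => h.2, fun h => ⟨rfl, h⟩⟩
            · rw [dif_neg hu, dif_neg hu]
              exact Iff.rfl
        · intro u hu
          rw [dif_neg hu]
    · intro a _ ha
      refine Finset.sum_eq_zero fun b _ => Finset.sum_eq_zero fun x _ => ?_
      obtain ⟨u, hu⟩ := Function.ne_iff.mp ha
      rw [Finset.prod_eq_zero (Finset.mem_univ u.1), mul_zero]
      rw [if_neg]
      unfold PepoChain
      rw [dif_pos u.2]
      rintro ⟨h1, -⟩
      exact hu h1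
    · intro h
      exact absurd (Finset.mem_univ _) h

lemma Pepo_card {ι : Type} (l : List ι) (p : ι → Prop) [DecidablePred p] :
    (univ.filter fun j : Fin l.length => p (l.get j)).card = (l.filter fun i => p i).length := by
  rw [Finset.card_filter, ← List.sum_ofFn]
  have h1 : (List.ofFn fun j : Fin l.length => if p (l.get j) then 1 else 0) =
      l.map fun i => if p i then 1 else 0 := by
    conv_rhs => rw [← List.ofFn_get l, List.map_ofFn]
    rfl
  rw [h1]
  clear h1
  induction l with
  | nil => rfl
  | cons a l ih =>
    rw [List.map_cons, List.sum_cons, ih, List.filter_cons]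
    by_cases ha : p a
    · simp [ha, add_comm]
    · simp [ha]

/-- EC10: an ordered product of local operators on connected sets of at most `M` sites, every site
being in at most `N` of the sets, is a PEPO. -/
theorem pepo_prod_mult {ι : Type} (hd : 0 < d) (l : List ι) (K : ι → Finset (Site L)) {N : ℕ}
    (hmult : ∀ u, (l.filter fun i => u ∈ K i).length ≤ N) (hne : ∀ i, (K i).Nonempty)
    (hconn : ∀ i, Conn (K i)) (M : ℕ) (hM : ∀ i, (K i).card ≤ M)
    (O : ι → Hil d L →L[ℂ] Hil d L) (hO : ∀ i, LocalOn (K i) (O i)) :
    IsPEPO ((d ^ (2 * M)) ^ N) (mat (l.map O).prod) := by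
  classical
  choose m hm using fun i => (hO i).form
  choose r hr using hne
  -- the alphabets
  obtain ⟨k, hk⟩ : ∃ k : Fin l.length → ℕ, ∀ j, k j =
    Fintype.card ((K (l.get j) → Fin d) × (K (l.get j) → Fin d)) := ⟨_, fun _ => rfl⟩
  have hkc : ∀ j, k j = d ^ (2 * (K (l.get j)).card) := by
    intro j
    rw [hk, Fintype.card_prod, Fintype.card_fun, Fintype.card_fin, Fintype.card_coe, two_mul,
      pow_add]
  have e : ∀ j, Fin (k j) ≃ ((K (l.get j) → Fin d) × (K (l.get j) → Fin d)) := fun j =>
    (finCongr (hk j)).trans (Fintype.equivFin _).symm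
  have hl : (l.map O).prod = (List.ofFn fun j : Fin l.length => O (l.get j)).prod := by
    congr 1
    conv_lhs => rw [← List.ofFn_get l, List.map_ofFn]
    rfl
  refine routed_pepo (Skel.mk (Fin l.length) inferInstance inferInstance k
      (fun j => K (l.get j))) ?_ (fun u σ σ' x =>
      (if PepoChain l.length (fun j => K (l.get j)) (fun j => e j (x j)) u σ σ'
        then 1 else 0) *
      ∏ j : Fin l.length, if u = r (l.get j) then m (l.get j) (e j (x j)).1 (e j (x j)).2 else 1)
      ?_ _ ?_
  · refine ⟨?_, ?_, ?_, ?_, ?_⟩
    · intro j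
      simp only [hkc]
      exact Nat.pow_pos hd
    · intro j
      exact ⟨_, hr _⟩
    · intro j
      exact Finset.subset_univ _
    · intro j
      exact hconn _
    · intro u
      simp only
      refine (Finset.prod_le_pow_card _ _ (d ^ (2 * M)) fun j _ => ?_).trans ?_
      · rw [hkc]
        exact Nat.pow_le_pow_right hd (Nat.mul_le_mul_left 2 (hM _))
      · refine Nat.pow_le_pow_right (Nat.pow_pos hd) ?_
        have h1 := hmult u
        rw [← Pepo_card l fun i => u ∈ K i] at h1
        exact h1
  · intro u σ σ' x x' hxx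
    simp only at hxx ⊢
    congr 1
    · congr 1
      rw [eq_iff_iff]
      refine Pepo_chain_congr _ _ _ _ u (fun j hj => ?_) σ σ'
      rw [hxx j hj]
    · refine Finset.prod_congr rfl fun j _ => ?_
      by_cases h : u = r (l.get j)
      · rw [if_pos h, if_pos h, hxx j (by rw [h]; exact hr _)]
      · rw [if_neg h, if_neg h]
  · intro s s'
    rw [hl, Pepo_formula l.length (fun j => K (l.get j)) (fun j => O (l.get j))
      (fun j => m (l.get j)) (fun j => hm (l.get j))]
    rw [← (Equiv.piCongrRight e).sum_comp]
    refine Finset.sum_congr rfl fun x _ => ?_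
    rw [Finset.prod_mul_distrib, mul_comm]
    congr 1
    rw [Finset.prod_comm]
    refine Finset.prod_congr rfl fun j _ => ?_
    rw [Finset.prod_ite_eq', if_pos (Finset.mem_univ _)]
    rfl

end Pool.Agent.FFG.EC
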