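import Pool.Agent.FFG.EC.Defs

/-!
# Entropy criterion: choice of a basis vector
-/

open Finset
open scoped InnerProductSpace

set_option autoImplicit false
set_option linter.unusedSectionVars false
set_option linter.unusedVariables false

namespace Pool.Agent.FFG.EC

open Pool.Agent.PEPS953 Pool.Agent.PepsX Pool.Agent.PepsY Pool.Agent.FFG
open Pool.Agent.FFG.EPlain (glue rdm rdm_isHermitian entropy boxAt IsDecomp condSum)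

variable {d L : ℕ} [NeZero L]

/-- `∑ₛ |⟨Ψ, T eₛ⟩|² = |T* Ψ|²`. -/
private lemma select_sum (Ψ : Hil d L) (T : Hil d L →L[ℂ] Hil d L) :
    ∑ s : Conf d L, ‖⟪Ψ, T (bvec s)⟫_ℂ‖ ^ 2 = ‖(ContinuousLinearMap.adjoint T) Ψ‖ ^ 2 := by
  rw [EuclideanSpace.norm_sq_eq]
  refine sum_congr rfl fun s _ => ?_
  rw [← ContinuousLinearMap.adjoint_inner_left, bvec, EuclideanSpace.inner_single_right]
  simp

theorem select {Ψ : Hil d L} (hΨ : ‖Ψ‖ = 1) {T : Hil d L →L[ℂ] Hil d L}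
    (hT : ∑ s : Conf d L, ‖T (bvec s)‖ ^ 2 ≤ 1) {μ : ℝ} (hμ : 0 < μ) (h : μ ≤ ‖⟪Ψ, T Ψ⟫_ℂ‖) :
    ∃ s : Conf d L, T (bvec s) ≠ 0 ∧ μ * ‖T (bvec s)‖ ≤ ‖⟪Ψ, T (bvec s)⟫_ℂ‖ := by
  by_contra hcon
  push Not at hcon
  have h1 : μ ≤ ‖(ContinuousLinearMap.adjoint T) Ψ‖ := by
    refine h.trans ?_
    rw [← ContinuousLinearMap.adjoint_inner_left]
    refine (norm_inner_le_norm _ _).trans ?_
    rw [hΨ, mul_one]
  have h2 : μ ^ 2 ≤ ∑ s : Conf d L, ‖⟪Ψ, T (bvec s)⟫_ℂ‖ ^ 2 := by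
    rw [select_sum]
    exact pow_le_pow_left₀ hμ.le h1 2
  have h3 : ∀ s : Conf d L, ‖⟪Ψ, T (bvec s)⟫_ℂ‖ ^ 2 ≤ μ ^ 2 * ‖T (bvec s)‖ ^ 2 := by
    intro s
    rw [← mul_pow]
    by_cases h0 : T (bvec s) = 0
    · rw [h0]; simp
    · exact pow_le_pow_left₀ (norm_nonneg _) (hcon s h0).le 2
  -- some `T (bvec s)` is not zero
  have h4 : ∃ s : Conf d L, T (bvec s) ≠ 0 := by
    by_contra h5
    push Not at h5
    have : ∑ s : Conf d L, ‖⟪Ψ, T (bvec s)⟫_ℂ‖ ^ 2 = 0 :=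
      sum_eq_zero fun s _ => by rw [h5 s]; simp
    rw [this] at h2
    have := pow_pos hμ 2
    linarith
  obtain ⟨s₀, hs₀⟩ := h4
  have h5 : ‖⟪Ψ, T (bvec s₀)⟫_ℂ‖ ^ 2 < μ ^ 2 * ‖T (bvec s₀)‖ ^ 2 := by
    rw [← mul_pow]
    exact pow_lt_pow_left₀ (hcon s₀ hs₀) (norm_nonneg _) two_ne_zero
  have h6 : ∑ s : Conf d L, ‖⟪Ψ, T (bvec s)⟫_ℂ‖ ^ 2 < ∑ s : Conf d L, μ ^ 2 * ‖T (bvec s)‖ ^ 2 :=
    sum_lt_sum (fun s _ => h3 s) ⟨s₀, mem_univ _, h5⟩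
  rw [← mul_sum] at h6
  have h7 : μ ^ 2 * ∑ s : Conf d L, ‖T (bvec s)‖ ^ 2 ≤ μ ^ 2 * 1 :=
    mul_le_mul_of_nonneg_left hT (sq_nonneg μ)
  linarith

end Pool.Agent.FFG.EC
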