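import Pool.Agent.FFG.EC.Lines
import Pool.Agent.FFG.EC.Deriv
import Pool.Agent.FFG.EC.HS
import Pool.Agent.FFG.EC.Select
import Pool.Agent.FFG.EC.Pepo
import Pool.Agent.FFG.EC.BoxConn

/-!
# The entropy criterion on one torus
-/

open Finset
open scoped InnerProductSpace

set_option autoImplicit false
set_option linter.unusedSectionVars false
set_option linter.unusedVariables false

namespace Pool.Agent.FFG.EC

open Pool.Agent.PEPS953 Pool.Agent.PepsX Pool.Agent.PepsY Pool.Agent.FFG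
open Pool.Agent.FFG.EPlain (glue rdm rdm_isHermitian entropy boxAt IsDecomp condSum)

variable {d L : ℕ} [NeZero L]

lemma tprod_eq_list (Ψ : Hil d L) (A B : ℕ → Finset (Site L)) (z : ℂ) (m : ℕ) :
    tprod Ψ A B z m = ((List.range m).reverse.map fun j => fac Ψ (A j) (B j) z).prod := by
  induction m with
  | zero => simp [tprod]
  | succ m ih =>
    rw [List.range_succ, List.reverse_append, List.reverse_singleton, List.singleton_append,
      List.map_cons, List.prod_cons, ← ih]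
    rfl

lemma fac_localOn (Ψ : Hil d L) (A B : Finset (Site L)) (z : ℂ) :
    LocalOn (A ∪ B) (fac Ψ A B z) :=
  (rf_localOn Ψ (A ∪ B) _).mul ((rf_localOn Ψ B _).mono subset_union_right)

lemma mat_bvec (O : Hil d L →L[ℂ] Hil d L) (s : Conf d L) :
    O (bvec s) = (WithLp.toLp 2 (fun t => mat O t s) : Hil d L) := by
  have h1 : O = Matrix.toEuclideanCLM (𝕜 := ℂ) (n := Conf d L) (mat O) :=
    (StarAlgEquiv.apply_symm_apply _ _).symm
  ext t
  conv_lhs => rw [h1]
  change ((mat O).mulVec (bvec s).ofLp) t = mat O t s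
  unfold bvec
  rw [EuclideanSpace.ofLp_single, Matrix.mulVec_single_one]
  rfl

theorem tprod_peps {R n m : ℕ} {A B : ℕ → Finset (Site L)} {c : ℕ → Site L} (hd : 0 < d)
    (H : IsDecomp R n m A B c) (Ψ : Hil d L) (z : ℂ) (s : Conf d L) :
    IsPEPS (d ^ (2 * (n * R ^ 2))) (tprod Ψ A B z m (bvec s)) := by
  classical
  have hR : 0 < R := by
    rcases Nat.eq_zero_or_pos R with rfl | h
    · exfalso
      obtain ⟨j, hj, hv⟩ := H.cover (0, 0)
      have h1 := H.box j hj (mem_union_left _ hv)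
      unfold EPlain.boxAt at h1
      rw [mem_image] at h1
      obtain ⟨p, -, -⟩ := h1
      exact p.1.elim0
    · exact h
  have h1 := pepo_prod_mult hd (List.range m).reverse (fun j => boxAt L R (c j)) (N := n) ?_
    (fun j => boxAt_nonempty hR (c j)) (fun j => conn_boxAt R (c j)) (R ^ 2)
    (fun j => card_boxAt R (c j)) (fun j => if j < m then fac Ψ (A j) (B j) z else 1) ?_
  · have h2 : (List.range m).reverse.map (fun j => if j < m then fac Ψ (A j) (B j) z else 1) =
        (List.range m).reverse.map fun j => fac Ψ (A j) (B j) z := by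
      refine List.map_congr_left fun j hj => ?_
      rw [List.mem_reverse, List.mem_range] at hj
      rw [if_pos hj]
    rw [h2, ← tprod_eq_list] at h1
    have h3 := h1.col s
    rw [← mat_bvec] at h3
    have h4 : (d ^ (2 * R ^ 2)) ^ n = d ^ (2 * (n * R ^ 2)) := by
      rw [← pow_mul]; congr 1; ring
    rwa [h4] at h3
  · intro u
    rw [List.filter_reverse, List.length_reverse]
    refine le_trans (le_of_eq ?_) (H.mult u)
    rw [← List.toFinset_card_of_nodup (List.nodup_range.filter _)]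
    congr 1
    ext j
    simp
  · intro j
    by_cases hj : j < m
    · simp only [if_pos hj]
      exact (fac_localOn Ψ _ _ z).mono (H.box j hj)
    · simp only [if_neg hj]
      exact localOn_one _

theorem one_torus {R n m : ℕ} {A B : ℕ → Finset (Site L)} {c : ℕ → Site L} (hd : 0 < d)
    (H : IsDecomp R n m A B c) {Ψ : Hil d L} (hΨ : ‖Ψ‖ = 1) {η : ℝ} (hη : 0 < η) :
    ∃ Φ : Hil d L, IsPEPS (d ^ (2 * (n * R ^ 2))) Φ ∧ Φ ≠ 0 ∧
      Real.exp (-(condSum Ψ.ofLp m A B / 2) - η) * ‖Φ‖ ≤ ‖⟪Ψ, Φ⟫_ℂ‖ := by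
  set g : ℂ → ℂ := fun z => ⟪Ψ, tprod Ψ A B z m Ψ⟫_ℂ with hg
  have hdiff : Differentiable ℂ g := by
    intro z
    have h1 := (tprod_differentiable Ψ A B m) z
    have h2 : DifferentiableAt ℂ (fun z => tprod Ψ A B z m Ψ) z :=
      h1.clm_apply (differentiableAt_const Ψ)
    exact (innerSL ℂ Ψ).differentiableAt.comp z h2
  obtain ⟨C, hC⟩ := tprod_bounded Ψ A B m
  have hbd : ∀ z : ℂ, 0 ≤ z.re → z.re ≤ 1 → ‖g z‖ ≤ C := by
    intro z h0 h1
    refine (norm_inner_le_norm _ _).trans ?_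
    rw [hΨ, one_mul]
    refine (ContinuousLinearMap.le_opNorm _ _).trans ?_
    rw [hΨ, mul_one]
    exact hC z h0 h1
  have h0 : ∀ t : ℝ, ‖g ((t : ℂ) * Complex.I)‖ ≤ 1 := by
    intro t
    refine (norm_inner_le_norm _ _).trans ?_
    rw [hΨ, one_mul]
    exact (norm_tprod_le Ψ A B m t Ψ).trans hΨ.le
  have hder : HasDerivAt g (-((condSum Ψ.ofLp m A B / 2 : ℝ) : ℂ)) 0 := tprod_hasDerivAt hΨ A B m
  have hg0 : g 0 = 1 := by
    simp only [hg]
    rw [tprod_zero, inner_self_eq_norm_sq_to_K, hΨ]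
    simp
  obtain ⟨t, ht⟩ := three_lines hdiff hbd h0 hder hg0 hη
  obtain ⟨s, hs1, hs2⟩ := select hΨ
    (hs_le Ψ hd H.disj H.past H.cover t) (Real.exp_pos _) ht
  exact ⟨_, tprod_peps hd H Ψ _ s, hs1, hs2⟩

end Pool.Agent.FFG.EC
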