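import Pool.Agent.FFG.EC.Defs

/-!
# Entropy criterion: partial trace
-/

open Finset
open scoped InnerProductSpace

set_option autoImplicit false
set_option linter.unusedSectionVars false
set_option linter.unusedVariables false

namespace Pool.Agent.FFG.EC

open Pool.Agent.PEPS953 Pool.Agent.PepsX Pool.Agent.PepsY Pool.Agent.FFG
open Pool.Agent.FFG.EPlain (glue rdm rdm_isHermitian entropy boxAt IsDecomp condSum)

variable {d L : ℕ} [NeZero L]

private lemma mat_star (O : Hil d L →L[ℂ] Hil d L) : mat (star O) = star (mat O) :=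
  map_star _ _

private lemma star_localOn {K : Finset (Site L)} {O : Hil d L →L[ℂ] Hil d L} (h : LocalOn K O) :
    LocalOn K (star O) := by
  intro u hu a b
  have h1 := congrArg star (h u hu b a)
  rw [star_mul, star_mul, star_su] at h1
  exact h1.symm

private lemma mat_entry (O : Hil d L →L[ℂ] Hil d L) (s t : Conf d L) :
    ⟪bvec s, O (bvec t)⟫_ℂ = mat O s t := by
  have h : O = Matrix.toEuclideanCLM (𝕜 := ℂ) (n := Conf d L) (mat O) :=
    ((Matrix.toEuclideanCLM (𝕜 := ℂ) (n := Conf d L)).apply_symm_apply O).symm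
  conv_lhs => rw [h]
  unfold bvec
  rw [EuclideanSpace.inner_single_left, map_one, one_mul, EuclideanSpace.single]
  rw [Matrix.toEuclideanCLM_toLp]
  change (mat O).mulVec (Pi.single t 1) s = _
  rw [Matrix.mulVec_single_one]
  rfl

private lemma trp_eq (O Y : Hil d L →L[ℂ] Hil d L) :
    trp O Y = ∑ a, ∑ b, mat O a b * mat (Y * star Y) b a := by
  have h : trp O Y = (mat (star Y * (O * Y))).trace := by
    unfold trp Matrix.trace
    refine sum_congr rfl fun s _ => ?_
    rw [Matrix.diag_apply, ← mat_entry]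
    rw [mul_apply_eq_comp, mul_apply_eq_comp,
      ContinuousLinearMap.star_eq_adjoint, ContinuousLinearMap.adjoint_inner_right]
  rw [h, mat_mul, Matrix.trace_mul_comm, mat_mul, Matrix.mul_assoc, ← mat_mul Y (star Y)]
  unfold Matrix.trace
  refine sum_congr rfl fun a _ => ?_
  rw [Matrix.diag_apply, Matrix.mul_apply]

private lemma mat_emb (X : Finset (Site L)) (M : Matrix (X → Fin d) (X → Fin d) ℂ)
    (s t : Conf d L) :
    mat (emb X M) s t = if ∀ v, v ∉ X → s v = t v then M (fun v => s v) (fun v => t v) else 0 := by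
  have h : mat (emb X M) = fun s t =>
      if ∀ v, v ∉ X → s v = t v then M (fun v => s v) (fun v => t v) else 0 :=
    (Matrix.toEuclideanCLM (𝕜 := ℂ) (n := Conf d L)).symm_apply_apply _
  exact congrFun (congrFun h s) t

private lemma sum_conf (X : Finset (Site L)) (F : Conf d L → ℂ) (a : Conf d L)
    (hF : ∀ r r', (∀ v, v ∉ X → r v = r' v) → F r = F r') :
    ∑ r, F r = (d : ℂ) ^ (#X) * ∑ w : {v // v ∉ X} → Fin d, F (glue X (fun v => a v) w) := by
  classical
  rw [← Equiv.sum_comp (Equiv.piEquivPiSubtypeProd (fun v => v ∈ X) (fun _ => Fin d)).symm F,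
    Fintype.sum_prod_type]
  have h1 : ∀ x : {v // v ∈ X} → Fin d,
      ∑ y, F ((Equiv.piEquivPiSubtypeProd (fun v => v ∈ X) (fun _ => Fin d)).symm (x, y)) =
        ∑ w : {v // v ∉ X} → Fin d, F (glue X (fun v => a v) w) := by
    intro x
    refine sum_congr rfl fun w _ => hF _ _ fun v hv => ?_
    unfold glue
    rw [dif_neg hv]
    exact dif_neg hv
  rw [sum_congr rfl fun x _ => h1 x, sum_const, nsmul_eq_mul]
  congr 1
  rw [card_univ, Fintype.card_fun, Fintype.card_fin, Fintype.card_coe]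
  push_cast
  rfl

private lemma rdm_eq (Ψ : Hil d L) (X : Finset (Site L)) (a b : Conf d L) :
    (d : ℂ) ^ (#X) * rdm Ψ.ofLp X (fun v => a v) (fun v => b v) =
      ∑ r : Conf d L, Ψ.ofLp (X.piecewise a r) * star (Ψ.ofLp (X.piecewise b r)) := by
  classical
  rw [sum_conf X _ a]
  · unfold rdm
    congr 1
    refine sum_congr rfl fun w _ => ?_
    have e1 : ∀ c : Conf d L, X.piecewise c (glue X (fun v => a v) w) =
        glue X (fun v => c v) w := by
      intro c
      funext v
      unfold glue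
      by_cases hv : v ∈ X
      · rw [Finset.piecewise_eq_of_mem _ _ _ hv, dif_pos hv]
      · rw [Finset.piecewise_eq_of_notMem _ _ _ hv, dif_neg hv, dif_neg hv]
    rw [e1, e1]
  · intro r r' hr
    have e2 : ∀ c : Conf d L, X.piecewise c r = X.piecewise c r' := by
      intro c
      funext v
      by_cases hv : v ∈ X
      · rw [Finset.piecewise_eq_of_mem _ _ _ hv, Finset.piecewise_eq_of_mem _ _ _ hv]
      · rw [Finset.piecewise_eq_of_notMem _ _ _ hv, Finset.piecewise_eq_of_notMem _ _ _ hv, hr v hv]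
    rw [e2, e2]

/-- The sum over the triples of configurations. -/
private lemma key (Ψ : Hil d L) {A B : Finset (Site L)} (hAB : Disjoint A B)
    {Z : Matrix (Conf d L) (Conf d L) ℂ}
    (hZ : ∀ s t r : Conf d L, (∀ v ∈ A, s v = t v) → Z (A.piecewise r s) (A.piecewise r t) = Z s t) :
    ∑ p ∈ (univ : Finset (Conf d L × Conf d L × Conf d L)).filter
        (fun p => ∀ v, v ∉ B → p.1 v = p.2.1 v),
      Ψ.ofLp ((A ∪ B).piecewise p.1 p.2.2) * star (Ψ.ofLp ((A ∪ B).piecewise p.2.1 p.2.2)) *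
        Z p.2.1 p.1 =
    ∑ p ∈ (univ : Finset (Conf d L × Conf d L × Conf d L)).filter
        (fun p => ∀ v, v ∉ B → p.1 v = p.2.1 v),
      Ψ.ofLp (B.piecewise p.1 p.2.2) * star (Ψ.ofLp (B.piecewise p.2.1 p.2.2)) *
        Z p.2.1 p.1 := by
  classical
  have hB : ∀ v ∈ A, v ∉ B := fun v hv => Finset.disjoint_left.mp hAB hv
  set f : Conf d L × Conf d L × Conf d L → Conf d L × Conf d L × Conf d L :=
    fun p => (A.piecewise p.2.2 p.1, A.piecewise p.2.2 p.2.1, A.piecewise p.1 p.2.2) with hf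
  have hmem : ∀ p ∈ (univ : Finset (Conf d L × Conf d L × Conf d L)).filter
        (fun p => ∀ v, v ∉ B → p.1 v = p.2.1 v), f p ∈
      (univ : Finset (Conf d L × Conf d L × Conf d L)).filter
        (fun p => ∀ v, v ∉ B → p.1 v = p.2.1 v) := by
    intro p hp
    rw [mem_filter] at hp ⊢
    refine ⟨mem_univ _, fun v hv => ?_⟩
    change A.piecewise p.2.2 p.1 v = A.piecewise p.2.2 p.2.1 v
    by_cases hA : v ∈ A
    · rw [Finset.piecewise_eq_of_mem _ _ _ hA, Finset.piecewise_eq_of_mem _ _ _ hA]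
    · rw [Finset.piecewise_eq_of_notMem _ _ _ hA, Finset.piecewise_eq_of_notMem _ _ _ hA,
        hp.2 v hv]
  have hinv : ∀ p ∈ (univ : Finset (Conf d L × Conf d L × Conf d L)).filter
        (fun p => ∀ v, v ∉ B → p.1 v = p.2.1 v), f (f p) = p := by
    intro p hp
    rw [mem_filter] at hp
    obtain ⟨a, b, r⟩ := p
    have hp2 : ∀ v, v ∉ B → a v = b v := hp.2
    change (A.piecewise (A.piecewise a r) (A.piecewise r a),
      A.piecewise (A.piecewise a r) (A.piecewise r b),
      A.piecewise (A.piecewise r a) (A.piecewise a r)) = (a, b, r)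
    refine Prod.ext ?_ (Prod.ext ?_ ?_)
    · funext v
      by_cases hA : v ∈ A
      · simp only [Finset.piecewise_eq_of_mem _ _ _ hA]
      · simp only [Finset.piecewise_eq_of_notMem _ _ _ hA]
    · funext v
      by_cases hA : v ∈ A
      · simp only [Finset.piecewise_eq_of_mem _ _ _ hA]
        exact hp2 v (hB v hA)
      · simp only [Finset.piecewise_eq_of_notMem _ _ _ hA]
    · funext v
      by_cases hA : v ∈ A
      · simp only [Finset.piecewise_eq_of_mem _ _ _ hA]
      · simp only [Finset.piecewise_eq_of_notMem _ _ _ hA]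
  refine sum_nbij' f f hmem hmem hinv hinv ?_
  intro p hp
  rw [mem_filter] at hp
  obtain ⟨a, b, r⟩ := p
  have hp2 : ∀ v, v ∉ B → a v = b v := hp.2
  change Ψ.ofLp ((A ∪ B).piecewise a r) * star (Ψ.ofLp ((A ∪ B).piecewise b r)) * Z b a =
    Ψ.ofLp (B.piecewise (A.piecewise r a) (A.piecewise a r)) *
      star (Ψ.ofLp (B.piecewise (A.piecewise r b) (A.piecewise a r))) *
      Z (A.piecewise r b) (A.piecewise r a)
  have e1 : B.piecewise (A.piecewise r a) (A.piecewise a r) = (A ∪ B).piecewise a r := by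
    funext v
    by_cases hvA : v ∈ A
    · rw [Finset.piecewise_eq_of_notMem _ _ _ (hB v hvA), Finset.piecewise_eq_of_mem _ _ _ hvA,
        Finset.piecewise_eq_of_mem _ _ _ (mem_union_left _ hvA)]
    · by_cases hvB : v ∈ B
      · rw [Finset.piecewise_eq_of_mem _ _ _ hvB, Finset.piecewise_eq_of_notMem _ _ _ hvA,
          Finset.piecewise_eq_of_mem _ _ _ (mem_union_right _ hvB)]
      · rw [Finset.piecewise_eq_of_notMem _ _ _ hvB, Finset.piecewise_eq_of_notMem _ _ _ hvA,
          Finset.piecewise_eq_of_notMem _ _ _ (by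
            rw [mem_union]; exact fun h => h.elim hvA hvB)]
  have e2 : B.piecewise (A.piecewise r b) (A.piecewise a r) = (A ∪ B).piecewise b r := by
    funext v
    by_cases hvA : v ∈ A
    · rw [Finset.piecewise_eq_of_notMem _ _ _ (hB v hvA), Finset.piecewise_eq_of_mem _ _ _ hvA,
        Finset.piecewise_eq_of_mem _ _ _ (mem_union_left _ hvA), hp2 v (hB v hvA)]
    · by_cases hvB : v ∈ B
      · rw [Finset.piecewise_eq_of_mem _ _ _ hvB, Finset.piecewise_eq_of_notMem _ _ _ hvA,
          Finset.piecewise_eq_of_mem _ _ _ (mem_union_right _ hvB)]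
      · rw [Finset.piecewise_eq_of_notMem _ _ _ hvB, Finset.piecewise_eq_of_notMem _ _ _ hvA,
          Finset.piecewise_eq_of_notMem _ _ _ (by
            rw [mem_union]; exact fun h => h.elim hvA hvB)]
  rw [e1, e2, hZ b a r (fun v hv => (hp2 v (hB v hv)).symm)]

private lemma sum_triple (B : Finset (Site L)) (G : Conf d L → Conf d L → Conf d L → ℂ) :
    ∑ p ∈ (univ : Finset (Conf d L × Conf d L × Conf d L)).filter
        (fun p => ∀ v, v ∉ B → p.1 v = p.2.1 v), G p.1 p.2.1 p.2.2 =
      ∑ a, ∑ b, if ∀ v, v ∉ B → a v = b v then ∑ r, G a b r else 0 := by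
  classical
  rw [sum_filter, Fintype.sum_prod_type]
  refine sum_congr rfl fun a _ => ?_
  rw [Fintype.sum_prod_type]
  refine sum_congr rfl fun b _ => ?_
  by_cases h : ∀ v, v ∉ B → a v = b v
  · rw [if_pos h]
    exact sum_congr rfl fun r _ => if_pos h
  · rw [if_neg h]
    exact sum_eq_zero fun r _ => if_neg h

/-- The partial trace over `A` of the reduced density matrix on `A ∪ B` is the one on `B`. -/
theorem trp_rdm (Ψ : Hil d L) {A B : Finset (Site L)} (hAB : Disjoint A B)
    {Y : Hil d L →L[ℂ] Hil d L} (hY : LocalOn (univ \ A) Y) :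
    (d : ℂ) ^ (#A) * trp (emb (A ∪ B) (rdm Ψ.ofLp (A ∪ B))) Y = trp (emb B (rdm Ψ.ofLp B)) Y := by
  classical
  have hL : Nonempty (Site L) := ⟨(0, 0)⟩
  rcases Nat.eq_zero_or_pos d with hd | hd
  · subst hd
    have hE : IsEmpty (Conf 0 L) := ⟨fun s => Fin.elim0 (s hL.some)⟩
    unfold trp
    rw [univ_eq_empty, sum_empty, sum_empty, mul_zero]
  have hd0 : (d : ℂ) ≠ 0 := by exact_mod_cast hd.ne'
  set Z : Matrix (Conf d L) (Conf d L) ℂ := mat (Y * star Y) with hZd
  have hloc : LocalOn (univ \ A) (Y * star Y) := hY.mul (star_localOn hY)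
  have hA : ∀ u, u ∉ (univ \ A : Finset (Site L)) ↔ u ∈ A := by
    intro u
    rw [mem_sdiff]
    exact ⟨fun h => by_contra fun h' => h ⟨mem_univ _, h'⟩, fun h h' => h'.2 h⟩
  have hZ0 : ∀ (s t : Conf d L), ¬ (∀ v ∈ A, s v = t v) → Z s t = 0 := by
    intro s t h
    push Not at h
    obtain ⟨v, hv, hne⟩ := h
    exact hloc.zero_of_ne ((hA v).mpr hv) hne
  have hZ : ∀ s t r : Conf d L, (∀ v ∈ A, s v = t v) →
      Z (A.piecewise r s) (A.piecewise r t) = Z s t := by
    intro s t r h
    exact hloc.piecewise (fun u hu => h u ((hA u).mp hu)) r A (fun u hu => (hA u).mpr hu)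
  have hcard : #(A ∪ B) = #A + #B := card_union_of_disjoint hAB
  have hkey := key Ψ hAB hZ
  rw [sum_triple B (fun a b r => Ψ.ofLp ((A ∪ B).piecewise a r) *
      star (Ψ.ofLp ((A ∪ B).piecewise b r)) * Z b a),
    sum_triple B (fun a b r => Ψ.ofLp (B.piecewise a r) *
      star (Ψ.ofLp (B.piecewise b r)) * Z b a)] at hkey
  have h1 : (d : ℂ) ^ (#B) * ((d : ℂ) ^ (#A) * trp (emb (A ∪ B) (rdm Ψ.ofLp (A ∪ B))) Y) =
      ∑ a, ∑ b, if ∀ v, v ∉ B → a v = b v then
        ∑ r, Ψ.ofLp ((A ∪ B).piecewise a r) * star (Ψ.ofLp ((A ∪ B).piecewise b r)) * Z b a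
        else 0 := by
    rw [← mul_assoc, ← pow_add, add_comm, ← hcard, trp_eq, mul_sum]
    refine sum_congr rfl fun a _ => ?_
    rw [mul_sum]
    refine sum_congr rfl fun b _ => ?_
    rw [mat_emb]
    by_cases hab : ∀ v, v ∉ B → a v = b v
    · rw [if_pos hab, if_pos (fun v hv => hab v (fun h => hv (mem_union_right _ h))),
        ← mul_assoc, rdm_eq, sum_mul]
    · rw [if_neg hab]
      by_cases hab' : ∀ v, v ∉ A ∪ B → a v = b v
      · have hz : mat (Y * star Y) b a = 0 := by
          refine hZ0 b a fun h => hab fun v hv => ?_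
          by_cases hvA : v ∈ A
          · exact (h v hvA).symm
          · exact hab' v (by rw [mem_union]; exact fun h' => h'.elim hvA hv)
        rw [hz, mul_zero, mul_zero]
      · rw [if_neg hab', zero_mul, mul_zero]
  have h2 : (d : ℂ) ^ (#B) * trp (emb B (rdm Ψ.ofLp B)) Y =
      ∑ a, ∑ b, if ∀ v, v ∉ B → a v = b v then
        ∑ r, Ψ.ofLp (B.piecewise a r) * star (Ψ.ofLp (B.piecewise b r)) * Z b a
        else 0 := by
    rw [trp_eq, mul_sum]
    refine sum_congr rfl fun a _ => ?_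
    rw [mul_sum]
    refine sum_congr rfl fun b _ => ?_
    rw [mat_emb]
    by_cases hab : ∀ v, v ∉ B → a v = b v
    · rw [if_pos hab, if_pos hab, ← mul_assoc, rdm_eq, sum_mul]
    · rw [if_neg hab, if_neg hab, zero_mul, mul_zero]
  exact mul_left_cancel₀ (pow_ne_zero _ hd0) (h1.trans (hkey.trans h2.symm))

end Pool.Agent.FFG.EC
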