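import Pool.Agent.PEPS953.Plain

/-!
# Reduced density matrices, entropies and ordered partitions in plain terms
-/

open Finset

set_option autoImplicit false

namespace Pool.Agent.FFG.EPlain

open Pool.Agent.PEPS953.Plain

/-- The configuration equal to `a` on `X` and to `w` off `X`. -/
def glue {d L : ℕ} (X : Finset (Site L)) (a : X → Fin d) (w : {v // v ∉ X} → Fin d) : Conf d L :=
  fun v => if h : v ∈ X then a ⟨v, h⟩ else w ⟨v, h⟩

/-- The reduced density matrix of `Ψ` on the set `X` of sites. -/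
noncomputable def rdm {d L : ℕ} [NeZero L] (Ψ : Vec d L) (X : Finset (Site L)) :
    Matrix (X → Fin d) (X → Fin d) ℂ := fun a b =>
  ∑ w : {v // v ∉ X} → Fin d, Ψ (glue X a w) * star (Ψ (glue X b w))

lemma rdm_isHermitian {d L : ℕ} [NeZero L] (Ψ : Vec d L) (X : Finset (Site L)) :
    (rdm Ψ X).IsHermitian := by
  ext a b
  rw [Matrix.conjTranspose_apply]
  unfold rdm
  rw [star_sum]
  refine sum_congr rfl fun w _ => ?_
  rw [star_mul, star_star]

/-- The von Neumann entropy of the reduced density matrix of `Ψ` on `X`: the sum of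
`- x log x` over its eigenvalues `x`. -/
noncomputable def entropy {d L : ℕ} [NeZero L] (Ψ : Vec d L) (X : Finset (Site L)) : ℝ :=
  ∑ i, Real.negMulLog ((rdm_isHermitian Ψ X).eigenvalues i)

/-- The sites of the box of side `R` at `c`. -/
def boxAt (L : ℕ) [NeZero L] (R : ℕ) (c : Site L) : Finset (Site L) := univ.image (boxPos L R c)

/-- The sets `A 0, …, A (m - 1)` are a partition of the torus; every `B j` is contained in the union
of the `A i` with `i < j`; `A j ∪ B j` is contained in the box of side `R` at `c j`, and every site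
is in at most `n` of these boxes. -/
structure IsDecomp {L : ℕ} [NeZero L] (R n m : ℕ) (A B : ℕ → Finset (Site L)) (c : ℕ → Site L) :
    Prop where
  disj : ∀ i < m, ∀ j < m, i ≠ j → Disjoint (A i) (A j)
  cover : ∀ v, ∃ j < m, v ∈ A j
  past : ∀ j < m, ∀ v ∈ B j, ∃ i < j, v ∈ A i
  box : ∀ j < m, A j ∪ B j ⊆ boxAt L R (c j)
  mult : ∀ v, #{j ∈ range m | v ∈ boxAt L R (c j)} ≤ n

/-- The sum of the conditional entropies `S(A j ∪ B j) - S(B j)` of `Ψ`. -/
noncomputable def condSum {d L : ℕ} [NeZero L] (Ψ : Vec d L) (m : ℕ)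
    (A B : ℕ → Finset (Site L)) : ℝ :=
  ∑ j ∈ range m, (entropy Ψ (A j ∪ B j) - entropy Ψ (B j))

/-- For suitable `k`, `C` and all large `L`, the torus has an ordered partition as in `IsDecomp`
with `R`, `n` and the sum of the conditional entropies of `Ψ L` at most `C (log L) ^ k`. -/
def SmallCondSum {d : ℕ} (Ψ : ∀ (L : ℕ) [NeZero L], Vec d L) : Prop :=
  ∃ (k : ℕ) (C : ℝ) (L₀ : ℕ), ∀ (L : ℕ) [NeZero L], L₀ ≤ L →
    ∃ (R n m : ℕ) (A B : ℕ → Finset (Site L)) (c : ℕ → Site L), IsDecomp R n m A B c ∧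
      (R : ℝ) ≤ C * (Real.log L) ^ k ∧ (n : ℝ) ≤ C * (Real.log L) ^ k ∧
      condSum (Ψ L) m A B ≤ C * (Real.log L) ^ k

end Pool.Agent.FFG.EPlain
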