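import Pool.Agent.FFG.EC.Plain

/-!
# Two-sided conditional entropies in plain terms
-/

open Finset

set_option autoImplicit false

namespace Pool.Agent.FFG.EPlain

open Pool.Agent.PEPS953.Plain

/-- Every `D j` is contained in the union of the `A i` with `j < i < m`, and `A j ∪ D j` is
contained in the box of side `R` at `c j`. -/
def IsFuture {L : ℕ} [NeZero L] (R m : ℕ) (A D : ℕ → Finset (Site L)) (c : ℕ → Site L) : Prop :=
  ∀ j < m, (∀ v ∈ D j, ∃ i, j < i ∧ i < m ∧ v ∈ A i) ∧ A j ∪ D j ⊆ boxAt L R (c j)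

/-- The sum of the quantities `S(A j ∪ B j) + S(A j ∪ D j) - S(B j) - S(D j)` of `Ψ`. -/
noncomputable def twoSum {d L : ℕ} [NeZero L] (Ψ : Vec d L) (m : ℕ)
    (A B D : ℕ → Finset (Site L)) : ℝ :=
  ∑ j ∈ range m, (entropy Ψ (A j ∪ B j) + entropy Ψ (A j ∪ D j) - entropy Ψ (B j) -
    entropy Ψ (D j))

end Pool.Agent.FFG.EPlain
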