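import Pool.Agent.FFG.EC.One
import Pool.Agent.FFG.EC.PlainB

/-!
# The conditional entropies of the reversed partition
-/

open Finset
open scoped InnerProductSpace

set_option autoImplicit false
set_option linter.unusedSectionVars false
set_option linter.unusedVariables false

namespace Pool.Agent.FFG.EC

open Pool.Agent.PEPS953 Pool.Agent.PepsX Pool.Agent.PepsY Pool.Agent.FFG
open Pool.Agent.FFG.EPlain (entropy boxAt IsDecomp condSum IsFuture twoSum)

variable {d L : ℕ} [NeZero L]

/-- Conditional entropy sums are nonnegative. -/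
theorem condSum_nonneg {R n m : ℕ} {A B : ℕ → Finset (Site L)} {c : ℕ → Site L} (hd : 0 < d)
    (H : IsDecomp R n m A B c) {Ψ : Hil d L} (hΨ : ‖Ψ‖ = 1) : 0 ≤ condSum Ψ.ofLp m A B := by
  refine le_of_forall_pos_le_add fun η hη => ?_
  obtain ⟨Φ, -, h2, h3⟩ := one_torus hd H hΨ (half_pos hη)
  have h4 : 0 < ‖Φ‖ := norm_pos_iff.mpr h2
  have h5 : ‖⟪Ψ, Φ⟫_ℂ‖ ≤ 1 * ‖Φ‖ := by
    rw [← hΨ]
    exact norm_inner_le_norm _ _
  have h6 : Real.exp (-(condSum Ψ.ofLp m A B / 2) - η / 2) ≤ 1 :=
    le_of_mul_le_mul_right (h3.trans h5) h4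
  rw [Real.exp_le_one_iff] at h6
  linarith

theorem isDecomp_rev {R n m : ℕ} {A B D : ℕ → Finset (Site L)} {c : ℕ → Site L}
    (H : IsDecomp R n m A B c) (F : IsFuture R m A D c) :
    IsDecomp R n m (fun j => A (m - 1 - j)) (fun j => D (m - 1 - j))
      (fun j => c (m - 1 - j)) where
  disj := by
    intro i hi j hj hij
    exact H.disj _ (by omega) _ (by omega) (by omega)
  cover := by
    intro v
    obtain ⟨j, hj, hv⟩ := H.cover v
    refine ⟨m - 1 - j, by omega, ?_⟩
    rwa [show m - 1 - (m - 1 - j) = j by omega]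
  past := by
    intro j hj v hv
    obtain ⟨i, h1, h2, h3⟩ := (F (m - 1 - j) (by omega)).1 v hv
    refine ⟨m - 1 - i, by omega, ?_⟩
    rwa [show m - 1 - (m - 1 - i) = i by omega]
  box := by
    intro j hj
    exact (F (m - 1 - j) (by omega)).2
  mult := by
    intro v
    refine le_trans (le_of_eq ?_) (H.mult v)
    refine card_bij (fun j _ => m - 1 - j) ?_ ?_ ?_
    · intro j hj
      rw [mem_filter, mem_range] at hj ⊢
      exact ⟨by omega, hj.2⟩
    · intro i hi j hj hij
      rw [mem_filter, mem_range] at hi hj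
      omega
    · intro j hj
      rw [mem_filter, mem_range] at hj
      refine ⟨m - 1 - j, ?_, by omega⟩
      rw [mem_filter, mem_range]
      refine ⟨by omega, ?_⟩
      rw [show m - 1 - (m - 1 - j) = j by omega]
      exact hj.2

/-- The two-sided sum bounds the one-sided one. -/
theorem condSum_le_twoSum {R n m : ℕ} {A B D : ℕ → Finset (Site L)} {c : ℕ → Site L} (hd : 0 < d)
    (H : IsDecomp R n m A B c) (F : IsFuture R m A D c) {Ψ : Hil d L} (hΨ : ‖Ψ‖ = 1) :
    condSum Ψ.ofLp m A B ≤ twoSum Ψ.ofLp m A B D := by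
  have h1 := condSum_nonneg hd (isDecomp_rev H F) hΨ
  have h2 : condSum Ψ.ofLp m (fun j => A (m - 1 - j)) (fun j => D (m - 1 - j)) =
      ∑ j ∈ range m, (entropy Ψ.ofLp (A j ∪ D j) - entropy Ψ.ofLp (D j)) := by
    unfold condSum
    exact sum_range_reflect (fun j => entropy Ψ.ofLp (A j ∪ D j) - entropy Ψ.ofLp (D j)) m
  have h3 : twoSum Ψ.ofLp m A B D = condSum Ψ.ofLp m A B +
      ∑ j ∈ range m, (entropy Ψ.ofLp (A j ∪ D j) - entropy Ψ.ofLp (D j)) := by
    unfold twoSum condSum
    rw [← sum_add_distrib]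
    exact sum_congr rfl fun j _ => by ring
  rw [h3, ← h2]
  linarith

end Pool.Agent.FFG.EC
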